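import Pool.Agent.R277.FR.Seg

/-!
# The correction on the orbits, and the certificate theorem
-/

set_option autoImplicit false

namespace Pool.Agent.R277.FR

open Finset

/-- a function on the integers modulo `9913` which is supported on the points `p i` -/
noncomputable def ec (n : ℕ) (p : ℕ → ℕ) (a : ℕ → ℝ) (j : ℤ) : ℝ :=
  ∑ i ∈ range n, if (j - p i) % 9913 = 0 then a i else 0

theorem ec_per (n : ℕ) (p : ℕ → ℕ) (a : ℕ → ℝ) (j : ℤ) : ec n p a (j + 9913) = ec n p a j := by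
  unfold ec
  refine sum_congr rfl fun i _ => ?_
  have : (j + 9913 - p i) % 9913 = (j - p i) % 9913 := by omega
  rw [this]

theorem ec_abs {n : ℕ} {p : ℕ → ℕ} {a : ℕ → ℝ} {B : ℝ} (hB : 0 ≤ B) (h : ∀ i, i < n → |a i| ≤ B)
    (j : ℤ) : |ec n p a j| ≤ n * B := by
  unfold ec
  refine (abs_sum_le_sum_abs _ _).trans ?_
  have : ∑ i ∈ range n, |if (j - p i) % 9913 = 0 then a i else 0| ≤ ∑ _i ∈ range n, B := by
    refine sum_le_sum fun i hi => ?_
    split_ifs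
    · exact h i (mem_range.mp hi)
    · simpa using hB
  refine this.trans ?_
  simp

theorem ec_eq {n k : ℕ} {p : ℕ → ℕ} {a : ℕ → ℝ} {j : ℤ} (hk : k < n)
    (h : ∀ i, i < n → ((j - p i) % 9913 = 0 ↔ i = k)) : ec n p a j = a k := by
  unfold ec
  have : ∀ i ∈ range n, (if (j - p i) % 9913 = 0 then a i else 0) = if i = k then a i else 0 := by
    intro i hi
    have := h i (mem_range.mp hi)
    by_cases e : i = k
    · rw [if_pos e, if_pos (this.mpr e)]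
    · rw [if_neg e, if_neg fun f => e (this.mp f)]
  rw [sum_congr rfl this, sum_ite_eq', if_pos (mem_range.mpr hk)]

theorem ec_zero {n : ℕ} {p : ℕ → ℕ} {a : ℕ → ℝ} {j : ℤ}
    (h : ∀ i, i < n → ¬ (j - p i) % 9913 = 0) : ec n p a j = 0 := by
  unfold ec
  exact sum_eq_zero fun i hi => if_neg (h i (mem_range.mp hi))

theorem pl_at {N : ℕ} {G : ℤ → ℝ} {x : ℝ} {q : ℤ} (h : N * x = q) : pl N G x = G q := by
  rw [pl_cell (q := q) (by rw [h]) (by rw [h]; linarith), h]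
  ring

/-- the orbit of `1 / 431` -/
def rH (k : ℕ) : ℕ := 2 ^ k % 431

/-- the orbit of `1 / 23` -/
def rQ (k : ℕ) : ℕ := 2 ^ k % 23

theorem dH1 : ∀ k < 43, ∀ i < 43,
    ((((23 * rH k : ℕ) : ℤ) - ((23 * rH i : ℕ) : ℤ)) % 9913 = 0 ↔ i = k) := by decide +kernel

theorem dH2 : ∀ k < 43, ∀ i < 43,
    ((((46 * rH k : ℕ) : ℤ) - ((23 * rH i : ℕ) : ℤ)) % 9913 = 0 ↔ i = (k + 1) % 43) := by
  decide +kernel

theorem dH3 : ∀ k < 43, ∀ i < 11,
    ¬ (((23 * rH k : ℕ) : ℤ) - ((431 * rQ i : ℕ) : ℤ)) % 9913 = 0 := by decide +kernel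

theorem dH4 : ∀ k < 43, ∀ i < 11,
    ¬ (((46 * rH k : ℕ) : ℤ) - ((431 * rQ i : ℕ) : ℤ)) % 9913 = 0 := by decide +kernel

theorem dQ1 : ∀ k < 11, ∀ i < 11,
    ((((431 * rQ k : ℕ) : ℤ) - ((431 * rQ i : ℕ) : ℤ)) % 9913 = 0 ↔ i = k) := by decide +kernel

theorem dQ2 : ∀ k < 11, ∀ i < 11,
    ((((862 * rQ k : ℕ) : ℤ) - ((431 * rQ i : ℕ) : ℤ)) % 9913 = 0 ↔ i = (k + 1) % 11) := by
  decide +kernel

theorem dQ3 : ∀ k < 11, ∀ i < 43,
    ¬ (((431 * rQ k : ℕ) : ℤ) - ((23 * rH i : ℕ) : ℤ)) % 9913 = 0 := by decide +kernel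

theorem dQ4 : ∀ k < 11, ∀ i < 43,
    ¬ (((862 * rQ k : ℕ) : ℤ) - ((23 * rH i : ℕ) : ℤ)) % 9913 = 0 := by decide +kernel

/-- the correction function -/
noncomputable def ef (a b : ℕ → ℝ) (j : ℤ) : ℝ :=
  ec 43 (fun i => 23 * rH i) a j + ec 11 (fun i => 431 * rQ i) b j

theorem ef_per (a b : ℕ → ℝ) (j : ℤ) : ef a b (j + (9913 : ℕ)) = ef a b j := by
  unfold ef
  have := ec_per 43 (fun i => 23 * rH i) a j
  have := ec_per 11 (fun i => 431 * rQ i) b j
  push_cast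
  simp_all

theorem Qf_H {a b : ℕ → ℝ} {k : ℕ} (hk : k < 43) :
    Qf (ef a b) (((138 * rH k : ℕ) : ℝ) / 59478) = a ((k + 1) % 43) - a k := by
  unfold Qf
  rw [pl_at (q := ((46 * rH k : ℕ) : ℤ)) (by push_cast; ring),
    pl_at (q := ((23 * rH k : ℕ) : ℤ)) (by push_cast; ring)]
  unfold ef
  rw [ec_eq (k := (k + 1) % 43) (Nat.mod_lt _ (by norm_num)) (dH2 k hk),
    ec_zero (dH4 k hk), ec_eq (k := k) hk (dH1 k hk), ec_zero (dH3 k hk)]
  ring

theorem Qf_Q {a b : ℕ → ℝ} {k : ℕ} (hk : k < 11) :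
    Qf (ef a b) (((2586 * rQ k : ℕ) : ℝ) / 59478) = b ((k + 1) % 11) - b k := by
  unfold Qf
  rw [pl_at (q := ((862 * rQ k : ℕ) : ℤ)) (by push_cast; ring),
    pl_at (q := ((431 * rQ k : ℕ) : ℤ)) (by push_cast; ring)]
  unfold ef
  rw [ec_eq (k := (k + 1) % 11) (Nat.mod_lt _ (by norm_num)) (dQ2 k hk),
    ec_zero (dQ4 k hk), ec_eq (k := k) hk (dQ1 k hk), ec_zero (dQ3 k hk)]
  ring

/-- partial sums around a cycle -/
theorem cyc {n : ℕ} {F : ℕ → ℝ} (hs : ∑ k ∈ range n, F k = 0) {k : ℕ} (hk : k < n) :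
    F k + (-(∑ i ∈ range ((k + 1) % n), F i) - -(∑ i ∈ range k, F i)) = 0 := by
  rcases Nat.lt_or_ge (k + 1) n with h | h
  · rw [Nat.mod_eq_of_lt h, sum_range_succ]; ring
  · have : k + 1 = n := by omega
    rw [this, Nat.mod_self, sum_range_zero]
    rw [← this, sum_range_succ] at hs
    linarith

theorem part_abs {F : ℕ → ℝ} {η : ℝ} {n k : ℕ} (h : ∀ i < n, |F i| ≤ η) (hk : k ≤ n)
    (hη : 0 ≤ η) : |-(∑ i ∈ range k, F i)| ≤ n * η := by
  rw [abs_neg]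
  refine (abs_sum_le_sum_abs _ _).trans ?_
  calc ∑ i ∈ range k, |F i| ≤ ∑ _i ∈ range k, η :=
        sum_le_sum fun i hi => h i (lt_of_lt_of_le (mem_range.mp hi) hk)
    _ = k * η := by simp
    _ ≤ n * η := by gcongr

/-- the average of the cosine on the orbit of `1 / 431` -/
noncomputable def cX : ℝ :=
  (∑ k ∈ range 43, Real.cos (2 * Real.pi * (((138 * rH k : ℕ) : ℝ) / 59478))) / 43

/-- the average of the sine on the orbit of `1 / 431` -/
noncomputable def cY : ℝ :=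
  (∑ k ∈ range 43, Real.sin (2 * Real.pi * (((138 * rH k : ℕ) : ℝ) / 59478))) / 43

/-- the average of the cosine on the orbit of `1 / 23` -/
noncomputable def qX : ℝ :=
  (∑ k ∈ range 11, Real.cos (2 * Real.pi * (((2586 * rQ k : ℕ) : ℝ) / 59478))) / 11

/-- the average of the sine on the orbit of `1 / 23` -/
noncomputable def qY : ℝ :=
  (∑ k ∈ range 11, Real.sin (2 * Real.pi * (((2586 * rQ k : ℕ) : ℝ) / 59478))) / 11

theorem sum_H {d : Dat} {α β γ : ℝ} (h : α - β * cX - γ * cY = 0)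
    (hA : ∑ k ∈ range 43, AI d (138 * rH k) = 0) :
    ∑ k ∈ range 43, Ff d α β γ (((138 * rH k : ℕ) : ℝ) / 59478) = 0 := by
  unfold Ff
  rw [sum_add_distrib]
  have h1 : ∑ k ∈ range 43, Af d (((138 * rH k : ℕ) : ℝ) / 59478) = 0 := by
    simp only [Af_int]
    rw [← sum_div]
    have : (∑ k ∈ range 43, (AI d (138 * rH k) : ℝ)) = 0 := by exact_mod_cast hA
    rw [this, zero_div]
  have h2 : ∑ k ∈ range 43, uf α β γ (((138 * rH k : ℕ) : ℝ) / 59478) =
      43 * (α - β * cX - γ * cY) := by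
    unfold uf cX cY
    rw [sum_sub_distrib, sum_sub_distrib, ← mul_sum, ← mul_sum]
    simp only [sum_const, card_range, nsmul_eq_mul]
    push_cast
    ring
  rw [h1, h2, h]
  ring

theorem sum_Q {d : Dat} {α β γ : ℝ} (h : α - β * qX - γ * qY = 0)
    (hA : ∑ k ∈ range 11, AI d (2586 * rQ k) = 0) :
    ∑ k ∈ range 11, Ff d α β γ (((2586 * rQ k : ℕ) : ℝ) / 59478) = 0 := by
  unfold Ff
  rw [sum_add_distrib]
  have h1 : ∑ k ∈ range 11, Af d (((2586 * rQ k : ℕ) : ℝ) / 59478) = 0 := by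
    simp only [Af_int]
    rw [← sum_div]
    have : (∑ k ∈ range 11, (AI d (2586 * rQ k) : ℝ)) = 0 := by exact_mod_cast hA
    rw [this, zero_div]
  have h2 : ∑ k ∈ range 11, uf α β γ (((2586 * rQ k : ℕ) : ℝ) / 59478) =
      11 * (α - β * qX - γ * qY) := by
    unfold uf qX qY
    rw [sum_sub_distrib, sum_sub_distrib, ← mul_sum, ← mul_sum]
    simp only [sum_const, card_range, nsmul_eq_mul]
    push_cast
    ring
  rw [h1, h2, h]
  ring

theorem gf_per (d : Dat) : Function.Periodic (gf d) 1 := by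
  intro x
  unfold gf
  rw [pl_periodic (Gu_per 431 d.ug) x, pl_periodic (Gu_per 23 d.vg) x]

theorem hf_per (d : Dat) : Function.Periodic (hf d) 1 := by
  intro x
  unfold hf
  rw [pl_periodic (Gu_per 862 d.uh) x, pl_periodic (Gu_per 23 d.vh) x]

end Pool.Agent.R277.FR
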