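import Pool.Agent.R277.FR.Data

/-!
# The integer checks
-/

set_option autoImplicit false

namespace Pool.Agent.R277.FR

/-- entry `k` of a table -/
def gt (tb k : ℕ) : ℤ :=
  ((tb >>> (64 * k) % 18446744073709551616 : ℕ) : ℤ) - 1152921504606846976

/-- the data of a certificate -/
structure Dat where
  ug : ℕ
  vg : ℕ
  uh : ℕ
  vh : ℕ
  a : ℤ
  b : ℤ
  c : ℤ

/-- `K` times the value of the interpolation at `y / K` -/
def ev (K n tb y : ℕ) : ℤ :=
  ((K - y % K : ℕ) : ℤ) * gt tb (y / K % n) + ((y % K : ℕ) : ℤ) * gt tb ((y / K + 1) % n)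

/-- the coboundary part -/
def AI (d : Dat) (v : ℕ) : ℤ :=
  2586 * (ev 138 431 d.ug (2 * v) - ev 138 431 d.ug v) +
    5172 * (ev 69 862 d.uh (3 * v) - ev 69 862 d.uh v) +
    138 * (ev 2586 23 d.vg (2 * v) - ev 2586 23 d.vg v +
      (ev 2586 23 d.vh (3 * v) - ev 2586 23 d.vh v))

/-- cosine -/
def cv (v : ℕ) : ℤ :=
  gt tcB (v / 244) * gt tcS (v % 244) - gt tsB (v / 244) * gt tsS (v % 244)

/-- sine -/
def sv (v : ℕ) : ℤ :=
  gt tsB (v / 244) * gt tcS (v % 244) + gt tcB (v / 244) * gt tsS (v % 244)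

/-- the value at the vertex `v` -/
def PT (d : Dat) (v : ℕ) : ℤ :=
  (d.a * 100000000000000000000000000000000 - d.b * cv v - d.c * sv v) * 356868 +
    AI d v * 100000000000000000000000000000000

/-- the threshold -/
def MT (L : ℕ) : ℤ :=
  35686800000000000000000000000000000000000 * ((11000 + 6 * L * L + 5000 * L : ℕ) : ℤ)

/-- points of the zero set -/
def isZ (z0 zq : Bool) (v : ℕ) : Bool :=
  (v % 138 == 0 && (List.range 43).any fun k => v == 138 * (2 ^ k % 431)) ||
    (z0 && (v == 0 || v == 59478)) ||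
    (zq && v % 2586 == 0 && (List.range 11).any fun k => v == 2586 * (2 ^ k % 23))

/-- cell conditions -/
def cell (v w : ℕ) : Bool :=
  Nat.ble w ((v / 138 + 1) * 138) && Nat.ble (2 * w) ((2 * v / 138 + 1) * 138) &&
    Nat.ble w ((v / 69 + 1) * 69) && Nat.ble (3 * w) ((3 * v / 69 + 1) * 69) &&
    Nat.ble w ((v / 2586 + 1) * 2586) && Nat.ble (2 * w) ((2 * v / 2586 + 1) * 2586) &&
    Nat.ble (3 * w) ((3 * v / 2586 + 1) * 2586) && Nat.ble (v + 1) w && Nat.ble w (v + 23)

/-- the condition at an endpoint -/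
def nb (z0 zq : Bool) (d : Dat) (L v : ℕ) : Bool :=
  isZ z0 zq v || decide (MT L ≤ PT d v)

/-- the condition for an interval -/
def good (z0 zq : Bool) (d : Dat) (v w : ℕ) : Bool :=
  cell v w && nb z0 zq d (w - v) v && nb z0 zq d (w - v) w && !(isZ z0 zq v && isZ z0 zq w)

/-- the condition for a block -/
def block (z0 zq : Bool) (d : Dat) (k : ℕ) : Bool :=
  if 23 * k < (23 * k + 22) / 431 * 431 then
    good z0 zq d (23 * k) ((23 * k + 22) / 431 * 431) &&
      good z0 zq d ((23 * k + 22) / 431 * 431) (23 * k + 23)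
  else good z0 zq d (23 * k) (23 * k + 23)

/-- conditions for `n` consecutive blocks -/
def blocks (z0 zq : Bool) (d : Dat) : ℕ → ℕ → Bool
  | 0, _ => true
  | n + 1, k => block z0 zq d k && blocks z0 zq d n (k + 1)

theorem blocks_spec {z0 zq : Bool} {d : Dat} {n : ℕ} : ∀ {k : ℕ}, blocks z0 zq d n k = true →
    ∀ j, k ≤ j → j < k + n → block z0 zq d j = true := by
  induction n with
  | zero => intro k _ j h1 h2; omega
  | succ n ih =>
    intro k h j h1 h2
    simp only [blocks, Bool.and_eq_true] at h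
    rcases eq_or_lt_of_le h1 with e | e
    · rw [← e]; exact h.1
    · exact ih h.2 j (by omega) (by omega)

/-- the data of the first certificate -/
def D3 : Dat := ⟨tUg3, tVg3, tUh3, tVh3, 189566040293, 189566040293, 835807314999⟩

/-- the data of the second certificate -/
def D4 : Dat := ⟨tUg4, tVg4, tUh4, tVh4, 44409386133, 28426301675, 209647230456⟩

/-- one step of the recurrence for the trigonometric tables -/
def stepOk (tc ts : ℕ) (c1 s1 : ℤ) (k : ℕ) : Bool :=
  decide (gt tc (k + 1) * 10000000000000000 - (gt tc k * c1 - gt ts k * s1) ≤ 10000000000000000) &&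
  decide (-10000000000000000 ≤ gt tc (k + 1) * 10000000000000000 - (gt tc k * c1 - gt ts k * s1)) &&
  decide (gt ts (k + 1) * 10000000000000000 - (gt ts k * c1 + gt tc k * s1) ≤ 10000000000000000) &&
  decide (-10000000000000000 ≤ gt ts (k + 1) * 10000000000000000 - (gt ts k * c1 + gt tc k * s1))

/-- all steps -/
def stepsOk (tc ts : ℕ) (c1 s1 : ℤ) : Bool := (List.range 244).all (stepOk tc ts c1 s1)

theorem small_ok : stepsOk tcS tsS (gt tcS 1) (gt tsS 1) = true := by decide +kernel

theorem big_ok : stepsOk tcB tsB (gt tcS 244) (gt tsS 244) = true := by decide +kernel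

end Pool.Agent.R277.FR
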