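import Pool.Agent.R277.FR.Chk

/-!
# The check of the first certificate
-/

set_option autoImplicit false

namespace Pool.Agent.R277.FR

theorem chk3 : blocks true false D3 2586 0 = true := by decide +kernel

end Pool.Agent.R277.FR
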