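import Mathlib

/-!
# A chord bound for trigonometric functions
-/

set_option autoImplicit false

namespace Pool.Agent.R277.FR

open Real

/-- the trigonometric part -/
noncomputable def uf (α β γ x : ℝ) : ℝ := α - β * cos (2 * π * x) - γ * sin (2 * π * x)

theorem uf_concave {α β γ C : ℝ} (hC : (2 * π) ^ 2 * (|β| + |γ|) ≤ C) :
    ConcaveOn ℝ Set.univ fun x => uf α β γ x - C / 2 * x ^ 2 := by
  have d1 : ∀ x : ℝ, HasDerivAt (fun x => uf α β γ x - C / 2 * x ^ 2)
      (β * (2 * π) * sin (2 * π * x) - γ * (2 * π) * cos (2 * π * x) - C * x) x := by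
    intro x
    have h0 : HasDerivAt (fun x : ℝ => 2 * π * x) (2 * π) x := by
      simpa using (hasDerivAt_id x).const_mul (2 * π)
    have h1 := (h0.cos).const_mul β
    have h2 := (h0.sin).const_mul γ
    have h3 := ((hasDerivAt_pow 2 x).const_mul (C / 2))
    have h4 := (((hasDerivAt_const x α).sub h1).sub h2).sub h3
    refine (h4.congr_deriv ?_)
    push_cast
    ring
  have d2 : ∀ x : ℝ, HasDerivAt (fun x => β * (2 * π) * sin (2 * π * x) -
      γ * (2 * π) * cos (2 * π * x) - C * x)
      ((2 * π) ^ 2 * (β * cos (2 * π * x) + γ * sin (2 * π * x)) - C) x := by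
    intro x
    have h0 : HasDerivAt (fun x : ℝ => 2 * π * x) (2 * π) x := by
      simpa using (hasDerivAt_id x).const_mul (2 * π)
    have h1 := (h0.sin).const_mul (β * (2 * π))
    have h2 := (h0.cos).const_mul (γ * (2 * π))
    have h3 := (hasDerivAt_id x).const_mul C
    have h4 := (h1.sub h2).sub h3
    refine (h4.congr_deriv ?_)
    ring
  have e1 : deriv (fun x => uf α β γ x - C / 2 * x ^ 2) = fun x => β * (2 * π) * sin (2 * π * x) -
      γ * (2 * π) * cos (2 * π * x) - C * x := funext fun x => (d1 x).deriv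
  refine concaveOn_univ_of_deriv2_nonpos (fun x => (d1 x).differentiableAt) ?_ ?_
  · rw [e1]; exact fun x => (d2 x).differentiableAt
  · intro x
    simp only [Function.iterate_succ, Function.iterate_zero, Function.comp_apply, id_eq]
    rw [e1, (d2 x).deriv]
    have a : β * cos (2 * π * x) ≤ |β| := by
      calc β * cos (2 * π * x) ≤ |β * cos (2 * π * x)| := le_abs_self _
        _ = |β| * |cos (2 * π * x)| := abs_mul _ _
        _ ≤ |β| * 1 := by gcongr; exact abs_cos_le_one _
        _ = |β| := mul_one _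
    have b : γ * sin (2 * π * x) ≤ |γ| := by
      calc γ * sin (2 * π * x) ≤ |γ * sin (2 * π * x)| := le_abs_self _
        _ = |γ| * |sin (2 * π * x)| := abs_mul _ _
        _ ≤ |γ| * 1 := by gcongr; exact abs_sin_le_one _
        _ = |γ| := mul_one _
    have c : (2 * π) ^ 2 * (β * cos (2 * π * x) + γ * sin (2 * π * x)) ≤
        (2 * π) ^ 2 * (|β| + |γ|) := by gcongr
    linarith

theorem uf_chord {α β γ C : ℝ} (hC : (2 * π) ^ 2 * (|β| + |γ|) ≤ C) (a b : ℝ) {t : ℝ}
    (h0 : 0 ≤ t) (h1 : t ≤ 1) :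
    (1 - t) * uf α β γ a + t * uf α β γ b - C / 2 * (t * (1 - t)) * (b - a) ^ 2 ≤
      uf α β γ ((1 - t) * a + t * b) := by
  have h := (uf_concave (α := α) hC).2 (Set.mem_univ a) (Set.mem_univ b)
    (by linarith : (0 : ℝ) ≤ 1 - t) h0 (by ring)
  simp only [smul_eq_mul] at h
  nlinarith

end Pool.Agent.R277.FR
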