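import Pool.Agent.Y315.FC.TwoThree

/-!
# Equality in the old inequality forces finite support
-/

set_option autoImplicit false

namespace Pool.Agent.R277.FR

open MeasureTheory Pool.Agent.Y315.FC Polynomial

/-- the polynomial with a given list of coefficients -/
noncomputable def plL : List (ℤ × ℤ) → ℂ[X]
  | [] => 0
  | a :: l => C (ph a) + X * plL l

theorem plL_eval (z : ℂ) (l : List (ℤ × ℤ)) : (plL l).eval z = ev z l := by
  induction l with
  | nil => simp [plL, ev]
  | cons a l ih => simp [plL, ev, ih]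

theorem conj_one {z : ℂ} (hz : ‖z‖ = 1) : z * (starRingEnd ℂ) z = 1 := by
  rw [Complex.mul_conj, Complex.normSq_eq_norm_sq, hz]
  norm_num

theorem tv_fin {a : ℤ} {l : List (ℤ × ℤ)} (h1 : tv 1 a l ≠ 0) :
    {x : UnitAddCircle | tv (fourier 1 x : ℂ) a l = 0}.Finite := by
  have hne : plL (full a l) ≠ 0 := by
    intro h
    have e := ev_full (z := 1) (by simp) a l
    rw [← plL_eval, h] at e
    simp only [eval_zero, one_pow, one_mul] at e
    exact h1 (by exact_mod_cast e.symm)
  have hroots : {z : ℂ | (plL (full a l)).IsRoot z}.Finite := finite_setOf_isRoot hne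
  have hinj : Function.Injective (fun x : UnitAddCircle => (fourier 1 x : ℂ)) := by
    intro x y hxy
    simp only [fourier_one] at hxy
    exact AddCircle.injective_toCircle (by norm_num : (1 : ℝ) ≠ 0) (Subtype.ext hxy)
  refine (hroots.preimage hinj.injOn).subset ?_
  intro x hx
  simp only [Set.mem_ofPred_eq] at hx
  simp only [Set.mem_preimage, Set.mem_ofPred_eq, IsRoot.def]
  rw [plL_eval, ev_full (conj_one (norm_four x)), hx]
  simp

theorem int_val {μ : Measure UnitAddCircle} [IsProbabilityMeasure μ]
    (h2 : MeasurePreserving (fun x : UnitAddCircle => 2 • x) μ μ)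
    (h3 : MeasurePreserving (fun x : UnitAddCircle => 3 • x) μ μ) :
    ∫ x, tv (fourier 1 x : ℂ) pB PB ∂μ = LB * (23 + 92 * (∫ x, (fourier 1 x : ℂ) ∂μ).re -
      18 * (Real.sqrt 23 * (∫ x, (fourier 1 x : ℂ) ∂μ).im)) := by
  rw [int_tv, Lam_chk (fun n => co_mul h2 n) (fun n => co_mul h3 n) (W := 81) (by norm_num)
    (by decide +kernel) chkB', ph_re, pB_eq]
  have hc : co μ 1 = ∫ x, (fourier 1 x : ℂ) ∂μ := by
    unfold co
    simp
  rw [hc]
  push_cast
  ring

theorem edgeB {μ : Measure UnitAddCircle} [IsProbabilityMeasure μ]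
    (h2 : MeasurePreserving (fun x : UnitAddCircle => 2 • x) μ μ)
    (h3 : MeasurePreserving (fun x : UnitAddCircle => 3 • x) μ μ)
    (h : 23 + 92 * (∫ x, (fourier 1 x : ℂ) ∂μ).re -
      18 * (Real.sqrt 23 * (∫ x, (fourier 1 x : ℂ) ∂μ).im) = 0) :
    ∃ F : Set UnitAddCircle, F.Finite ∧ μ Fᶜ = 0 := by
  have hv := int_val h2 h3
  rw [h, mul_zero] at hv
  have hone : tv 1 pB PB ≠ 0 := by
    have d2 : MeasurePreserving (fun x : UnitAddCircle => 2 • x) (Measure.dirac 0)
        (Measure.dirac 0) := by
      refine ⟨(continuous_nsmul 2).measurable, ?_⟩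
      rw [Measure.map_dirac' (continuous_nsmul 2).measurable, smul_zero]
    have d3 : MeasurePreserving (fun x : UnitAddCircle => 3 • x) (Measure.dirac 0)
        (Measure.dirac 0) := by
      refine ⟨(continuous_nsmul 3).measurable, ?_⟩
      rw [Measure.map_dirac' (continuous_nsmul 3).measurable, smul_zero]
    have hd := int_val d2 d3
    simp only [integral_dirac, fourier_eval_zero, Complex.one_re, Complex.one_im] at hd
    rw [hd]
    have := LB_pos
    have h4 : (0 : ℝ) < LB * (23 + 92 * 1 - 18 * (Real.sqrt 23 * 0)) := by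
      refine mul_pos this ?_
      norm_num
    exact h4.ne'
  have hnn : 0 ≤ fun x : UnitAddCircle => tv (fourier 1 x : ℂ) pB PB := fun x =>
    posB _ (norm_four x)
  have hcont : Continuous fun x : UnitAddCircle => tv (fourier 1 x : ℂ) pB PB := by
    unfold tv
    exact continuous_const.add (continuous_const.mul
      (Complex.continuous_re.comp ((map_continuous _).mul (cont_ev _))))
  have hint : Integrable (fun x : UnitAddCircle => tv (fourier 1 x : ℂ) pB PB) μ :=
    hcont.integrable_of_hasCompactSupport (HasCompactSupport.of_compactSpace _)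
  rw [integral_eq_zero_iff_of_nonneg hnn hint] at hv
  refine ⟨_, tv_fin hone, ?_⟩
  refine measure_mono_null ?_ hv
  intro x hx hx0
  exact hx hx0

end Pool.Agent.R277.FR
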