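import Mathlib

/-!
# Convex geometry of the hexagon
-/

set_option autoImplicit false

namespace Pool.Agent.R277.FR

open Complex

theorem mem4 {s : Set ℂ} (hs : Convex ℝ s) {a b c d : ℂ} (ha : a ∈ s) (hb : b ∈ s) (hc : c ∈ s)
    (hd : d ∈ s) {w1 w2 w3 w4 : ℝ} (h1 : 0 ≤ w1) (h2 : 0 ≤ w2) (h3 : 0 ≤ w3) (h4 : 0 ≤ w4)
    (h : w1 + w2 + w3 + w4 = 1) : w1 * a + w2 * b + w3 * c + w4 * d ∈ s := by
  have := hs.sum_mem (t := Finset.univ) (w := ![w1, w2, w3, w4]) (z := ![a, b, c, d])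
    (by intro i _; fin_cases i <;> simp [h1, h2, h3, h4])
    (by simp [Fin.sum_univ_four, h]) (by intro i _; fin_cases i <;> simp [ha, hb, hc, hd])
  simpa [Fin.sum_univ_four] using this

/-- Barycentric coordinates in the quadrilateral `-1/4, 1, (X, Y), (x0, y0)`. -/
theorem weights {X Y x0 y0 x y : ℝ} (hY : 0 < Y) (hD : 0 < (X + 1 / 4) * y0 - (x0 + 1 / 4) * Y)
    (hy : 0 ≤ y) (i1 : 0 ≤ Y - Y * x - (1 - X) * y)
    (i2 : 0 ≤ ((X - x0) * y0 + (y0 - Y) * x0) - (y0 - Y) * x - (X - x0) * y)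
    (i3 : 0 ≤ (x + 1 / 4) * y0 - (x0 + 1 / 4) * y) :
    ∃ w1 w2 w3 w4 : ℝ, 0 ≤ w1 ∧ 0 ≤ w2 ∧ 0 ≤ w3 ∧ 0 ≤ w4 ∧ w1 + w2 + w3 + w4 = 1 ∧
      x = w1 + w2 * X + w3 * x0 - w4 / 4 ∧ y = w2 * Y + w3 * y0 := by
  rcases le_total 0 (Y * (x + 1 / 4) - (X + 1 / 4) * y) with h | h
  · refine ⟨(Y * (x + 1 / 4) - (X + 1 / 4) * y) / (Y * (5 / 4)), y / Y, 0,
      (Y - Y * x - (1 - X) * y) / (Y * (5 / 4)), by positivity, by positivity, le_rfl,
      by positivity, ?_, ?_, ?_⟩
    · field_simp; ring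
    · field_simp; ring
    · field_simp; ring
  · set D := (X + 1 / 4) * y0 - (x0 + 1 / 4) * Y with hDd
    have hD0 : D ≠ 0 := hD.ne'
    refine ⟨0, ((x + 1 / 4) * y0 - (x0 + 1 / 4) * y) / D,
      (-(Y * (x + 1 / 4) - (X + 1 / 4) * y)) / D,
      (((X - x0) * y0 + (y0 - Y) * x0) - (y0 - Y) * x - (X - x0) * y) / D, le_rfl,
      div_nonneg i3 hD.le, div_nonneg (by linarith) hD.le, div_nonneg i2 hD.le, ?_, ?_, ?_⟩
    · rw [zero_add, ← add_div, ← add_div, div_eq_one_iff_eq hD0, hDd]; ring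
    · have : 0 + ((x + 1 / 4) * y0 - (x0 + 1 / 4) * y) / D * X +
          (-(Y * (x + 1 / 4) - (X + 1 / 4) * y)) / D * x0 -
          (((X - x0) * y0 + (y0 - Y) * x0) - (y0 - Y) * x - (X - x0) * y) / D / 4 =
          (((x + 1 / 4) * y0 - (x0 + 1 / 4) * y) * X +
          (-(Y * (x + 1 / 4) - (X + 1 / 4) * y)) * x0 -
          (((X - x0) * y0 + (y0 - Y) * x0) - (y0 - Y) * x - (X - x0) * y) / 4) / D := by
        field_simp; ring
      rw [this, eq_div_iff hD0, hDd]; ring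
    · have : ((x + 1 / 4) * y0 - (x0 + 1 / 4) * y) / D * Y +
          (-(Y * (x + 1 / 4) - (X + 1 / 4) * y)) / D * y0 =
          (((x + 1 / 4) * y0 - (x0 + 1 / 4) * y) * Y +
          (-(Y * (x + 1 / 4) - (X + 1 / 4) * y)) * y0) / D := by
        field_simp
      rw [this, eq_div_iff hD0, hDd]; ring

/-- the hexagon with vertices `1, v, w, -1/4` and the conjugates -/
def hexa (v w : ℂ) : Set ℂ :=
  convexHull ℝ {1, v, (starRingEnd ℂ) v, w, (starRingEnd ℂ) w, -1 / 4}

/-- the strict inequalities -/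
def opn (X Y x0 y0 : ℝ) : Set ℂ :=
  {c | 0 < Y - Y * c.re - (1 - X) * |c.im| ∧
    0 < ((X - x0) * y0 + (y0 - Y) * x0) - (y0 - Y) * c.re - (X - x0) * |c.im| ∧
    0 < (c.re + 1 / 4) * y0 - (x0 + 1 / 4) * |c.im|}

theorem hexa_of {v w c : ℂ} (hY : 0 < v.im)
    (hD : 0 < (v.re + 1 / 4) * w.im - (w.re + 1 / 4) * v.im)
    (i1 : 0 ≤ v.im - v.im * c.re - (1 - v.re) * |c.im|)
    (i2 : 0 ≤ ((v.re - w.re) * w.im + (w.im - v.im) * w.re) - (w.im - v.im) * c.re -
      (v.re - w.re) * |c.im|)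
    (i3 : 0 ≤ (c.re + 1 / 4) * w.im - (w.re + 1 / 4) * |c.im|) : c ∈ hexa v w := by
  obtain ⟨w1, w2, w3, w4, h1, h2, h3, h4, hs, hx, hy⟩ := weights hY hD (abs_nonneg c.im) i1 i2 i3
  have m : ∀ z ∈ ({1, v, (starRingEnd ℂ) v, w, (starRingEnd ℂ) w, -1 / 4} : Set ℂ),
      z ∈ hexa v w := fun z hz => subset_convexHull ℝ _ hz
  rcases le_total 0 c.im with hc | hc
  · rw [abs_of_nonneg hc] at hy
    have e : c = w1 * 1 + w2 * v + w3 * w + w4 * (-1 / 4) := by
      apply Complex.ext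
      · rw [hx]
        simp [Complex.add_re, Complex.mul_re]
        ring
      · rw [hy]
        simp [Complex.add_im, Complex.mul_im]
    rw [e]
    exact mem4 (convex_convexHull ℝ _) (m _ (by simp)) (m _ (by simp)) (m _ (by simp))
      (m _ (by simp)) h1 h2 h3 h4 hs
  · rw [abs_of_nonpos hc] at hy
    have hy' : c.im = -(w2 * v.im + w3 * w.im) := by rw [← hy]; ring
    have e : c = w1 * 1 + w2 * (starRingEnd ℂ) v + w3 * (starRingEnd ℂ) w + w4 * (-1 / 4) := by
      apply Complex.ext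
      · rw [hx]
        simp [Complex.add_re, Complex.mul_re]
        ring
      · rw [hy']
        simp [Complex.add_im, Complex.mul_im]
        ring
    rw [e]
    exact mem4 (convex_convexHull ℝ _) (m _ (by simp)) (m _ (by simp)) (m _ (by simp))
      (m _ (by simp)) h1 h2 h3 h4 hs

theorem opn_interior {v w : ℂ} (hY : 0 < v.im)
    (hD : 0 < (v.re + 1 / 4) * w.im - (w.re + 1 / 4) * v.im) :
    opn v.re v.im w.re w.im ⊆ interior (hexa v w) := by
  refine interior_maximal ?_ ?_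
  · rintro c ⟨i1, i2, i3⟩
    exact hexa_of hY hD i1.le i2.le i3.le
  · unfold opn
    simp only [Set.setOf_and]
    refine IsOpen.inter ?_ (IsOpen.inter ?_ ?_)
    · exact isOpen_lt continuous_const (by fun_prop)
    · exact isOpen_lt continuous_const (by fun_prop)
    · exact isOpen_lt continuous_const (by fun_prop)

/-- the vertex `v` is outside the convex hull of the other five points -/
theorem not_mem {v w : ℂ} (h : w.im * (1 - v.re) - (1 - w.re) * v.im < 0) (hw : 0 < w.im)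
    (hw1 : w.re < 1) (hv : v.re < 1) (hvi : 0 < v.im) :
    v ∉ convexHull ℝ ({1, (starRingEnd ℂ) v, w, (starRingEnd ℂ) w, -1 / 4} : Set ℂ) := by
  intro hm
  have hsub : convexHull ℝ ({1, (starRingEnd ℂ) v, w, (starRingEnd ℂ) w, -1 / 4} : Set ℂ) ⊆
      {c : ℂ | 0 ≤ w.im * (1 - c.re) - (1 - w.re) * c.im} := by
    refine convexHull_min ?_ ?_
    · intro c hc
      simp only [Set.mem_insert_iff, Set.mem_singleton_iff] at hc
      rcases hc with rfl | rfl | rfl | rfl | rfl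
      · simp
      · simp only [Set.mem_setOf_eq, Complex.conj_re, Complex.conj_im]
        nlinarith [mul_nonneg hw.le (by linarith : (0 : ℝ) ≤ 1 - v.re),
          mul_nonneg (by linarith : (0 : ℝ) ≤ 1 - w.re) hvi.le]
      · simp only [Set.mem_setOf_eq]
        nlinarith
      · simp only [Set.mem_setOf_eq, Complex.conj_re, Complex.conj_im]
        nlinarith [mul_nonneg hw.le (by linarith : (0 : ℝ) ≤ 1 - w.re)]
      · simp only [Set.mem_setOf_eq]
        have e1 : (-1 / 4 : ℂ).re = -1 / 4 := by norm_num [Complex.div_re]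
        have e2 : (-1 / 4 : ℂ).im = 0 := by norm_num [Complex.div_im]
        rw [e1, e2]
        nlinarith
    · intro a ha b hb s t hs ht hst
      simp only [Set.mem_setOf_eq] at ha hb ⊢
      simp only [Complex.add_re, Complex.add_im, Complex.real_smul, Complex.mul_re,
        Complex.mul_im, Complex.ofReal_re, Complex.ofReal_im, zero_mul, sub_zero, add_zero]
      have := mul_nonneg hs ha
      have := mul_nonneg ht hb
      have hs' : s = 1 - t := by linarith
      subst hs'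
      nlinarith
  have := hsub hm
  simp only [Set.mem_setOf_eq] at this
  linarith

end Pool.Agent.R277.FR
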