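import Pool.Agent.R277.FR.Main
import Pool.Agent.R277.FR.ChkA
import Pool.Agent.R277.FR.ChkB

/-!
# The two certificates
-/

set_option autoImplicit false

namespace Pool.Agent.R277.FR

open Finset

theorem avg {n : ℕ} (hn : 0 < n) {c : ℕ → ℤ} {f : ℕ → ℝ} {J : ℤ}
    (h : ∀ k < n, |(c k : ℝ) / 100000000000000000000000000000000 - f k| ≤ 3 / 100000000000)
    (hs : |(∑ k ∈ range n, c k) - n * (J * 100000000000000000000)| ≤ n * 100000000000000000000) :
    |(∑ k ∈ range n, f k) / n - J / 1000000000000| ≤ 4 / 100000000000 := by
  have hnr : (0 : ℝ) < n := by exact_mod_cast hn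
  have hs' : |(∑ k ∈ range n, (c k : ℝ)) - n * (J * 100000000000000000000)| ≤
      n * 100000000000000000000 := by exact_mod_cast hs
  have h1 : |∑ k ∈ range n, ((c k : ℝ) / 100000000000000000000000000000000 - f k)| ≤
      n * (3 / 100000000000) := by
    refine (abs_sum_le_sum_abs _ _).trans ?_
    calc _ ≤ ∑ _k ∈ range n, (3 / 100000000000 : ℝ) :=
          sum_le_sum fun k hk => h k (mem_range.mp hk)
      _ = _ := by simp
  rw [sum_sub_distrib, ← sum_div] at h1
  set A := ∑ k ∈ range n, (c k : ℝ)
  set B := ∑ k ∈ range n, f k
  have e : B / n - J / 1000000000000 =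
      (-(A / 100000000000000000000000000000000 - B) +
        (A - n * (J * 100000000000000000000)) / 100000000000000000000000000000000) / n := by
    field_simp
    ring
  rw [e, abs_div, abs_of_pos hnr, div_le_iff₀ hnr]
  refine (abs_add_le _ _).trans ?_
  rw [abs_neg, abs_div (A - n * (J * 100000000000000000000)),
    abs_of_pos (by norm_num : (0 : ℝ) < 100000000000000000000000000000000)]
  have : |A - n * (J * 100000000000000000000)| / 100000000000000000000000000000000 ≤
      n * 100000000000000000000 / 100000000000000000000000000000000 := by gcongr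
  linarith

theorem cX_num : |cX - 164192685001 / 1000000000000| ≤ 4 / 100000000000 := by
  have h := avg (n := 43) (J := 164192685001) (c := fun k => cv (138 * rH k))
    (f := fun k => Real.cos (2 * Real.pi * (((138 * rH k : ℕ) : ℝ) / 59478))) (by norm_num)
    (fun k _ => table_cos (rH_le k)) (by decide +kernel)
  push_cast at h
  unfold cX
  push_cast
  exact h

theorem cY_num : |cY - 189566040293 / 1000000000000| ≤ 4 / 100000000000 := by
  have h := avg (n := 43) (J := 189566040293) (c := fun k => sv (138 * rH k))
    (f := fun k => Real.sin (2 * Real.pi * (((138 * rH k : ℕ) : ℝ) / 59478))) (by norm_num)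
    (fun k _ => table_sin (rH_le k)) (by decide +kernel)
  push_cast at h
  unfold cY
  push_cast
  exact h

theorem qX_num : |qX - (-45454545455) / 1000000000000| ≤ 4 / 100000000000 := by
  have h := avg (n := 11) (J := -45454545455) (c := fun k => cv (2586 * rQ k))
    (f := fun k => Real.cos (2 * Real.pi * (((2586 * rQ k : ℕ) : ℝ) / 59478))) (by norm_num)
    (fun k _ => table_cos (rQ_le k)) (by decide +kernel)
  push_cast at h
  unfold qX
  push_cast
  exact h

theorem qY_num : |qY - 217992341969 / 1000000000000| ≤ 4 / 100000000000 := by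
  have h := avg (n := 11) (J := 217992341969) (c := fun k => sv (2586 * rQ k))
    (f := fun k => Real.sin (2 * Real.pi * (((2586 * rQ k : ℕ) : ℝ) / 59478))) (by norm_num)
    (fun k _ => table_sin (rQ_le k)) (by decide +kernel)
  push_cast at h
  unfold qY
  push_cast
  exact h

theorem pi_sq : (2 * Real.pi) ^ 2 ≤ 39.4787 := by
  have h1 := Real.pi_lt_d4
  have h2 := Real.pi_pos
  nlinarith

theorem num3 : Num true false D3 cY cY (1 - cX) := by
  have x := abs_le.mp cX_num
  have y := abs_le.mp cY_num
  have ea : ((D3.a : ℤ) : ℝ) = 189566040293 := by unfold D3; push_cast; rfl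
  have eb : ((D3.b : ℤ) : ℝ) = 189566040293 := by unfold D3; push_cast; rfl
  have ec : ((D3.c : ℤ) : ℝ) = 835807314999 := by unfold D3; push_cast; rfl
  constructor
  · exact chk3
  · rw [ea, abs_le]; constructor <;> linarith
  · rw [eb, abs_le]; constructor <;> linarith
  · rw [ec, abs_le]; constructor <;> linarith
  · rw [eb, abs_le]; constructor <;> norm_num
  · rw [ec, abs_le]; constructor <;> norm_num
  · have h1 : |cY| ≤ 0.18957 := by rw [abs_le]; constructor <;> linarith
    have h2 : |1 - cX| ≤ 0.83581 := by rw [abs_le]; constructor <;> linarith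
    have h3 := pi_sq
    have h4 : 0 ≤ |cY| + |1 - cX| := by positivity
    calc (2 * Real.pi) ^ 2 * (|cY| + |1 - cX|) ≤ 39.4787 * (0.18957 + 0.83581) := by gcongr
      _ ≤ 41 := by norm_num
  · intro _; rfl
  · ring
  · intro h; cases h
  · decide +kernel
  · intro h; cases h
  · decide +kernel
  · intro h; cases h

theorem num4 : Num false true D4 ((cX - qX) * qY + (qY - cY) * qX) (qY - cY) (cX - qX) := by
  have x := abs_le.mp cX_num
  have y := abs_le.mp cY_num
  have u := abs_le.mp qX_num
  have v := abs_le.mp qY_num
  have ea : ((D4.a : ℤ) : ℝ) = 44409386133 := by unfold D4; push_cast; rfl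
  have eb : ((D4.b : ℤ) : ℝ) = 28426301675 := by unfold D4; push_cast; rfl
  have ec : ((D4.c : ℤ) : ℝ) = 209647230456 := by unfold D4; push_cast; rfl
  constructor
  · exact chk4
  · rw [ea]
    have e : (cX - qX) * qY + (qY - cY) * qX - 44409386133 / 1000000000000 =
        (cX - 164192685001 / 1000000000000) * qY + 164192685001 / 1000000000000 *
          (qY - 217992341969 / 1000000000000) -
        (cY - 189566040293 / 1000000000000) * qX - 189566040293 / 1000000000000 *
          (qX - (-45454545455) / 1000000000000) +
        (164192685001 / 1000000000000 * (217992341969 / 1000000000000) -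
          189566040293 / 1000000000000 * ((-45454545455) / 1000000000000) -
          44409386133 / 1000000000000) := by ring
    rw [e]
    have b1 : |(cX - 164192685001 / 1000000000000) * qY| ≤ 4 / 100000000000 * 1 := by
      rw [abs_mul]
      exact mul_le_mul cX_num (by rw [abs_le]; constructor <;> linarith) (abs_nonneg _)
        (by norm_num)
    have b2 : |(cY - 189566040293 / 1000000000000) * qX| ≤ 4 / 100000000000 * 1 := by
      rw [abs_mul]
      exact mul_le_mul cY_num (by rw [abs_le]; constructor <;> linarith) (abs_nonneg _)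
        (by norm_num)
    have b1' := abs_le.mp b1
    have b2' := abs_le.mp b2
    rw [abs_le]
    constructor <;> norm_num at b1' b2' u v ⊢ <;> linarith
  · rw [eb, abs_le]; constructor <;> linarith
  · rw [ec, abs_le]; constructor <;> linarith
  · rw [eb, abs_le]; constructor <;> norm_num
  · rw [ec, abs_le]; constructor <;> norm_num
  · have h1 : |qY - cY| ≤ 0.03 := by rw [abs_le]; constructor <;> linarith
    have h2 : |cX - qX| ≤ 0.21 := by rw [abs_le]; constructor <;> linarith
    have h3 := pi_sq
    calc (2 * Real.pi) ^ 2 * (|qY - cY| + |cX - qX|) ≤ 39.4787 * (0.03 + 0.21) := by gcongr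
      _ ≤ 41 := by norm_num
  · intro h; cases h
  · ring
  · intro _; ring
  · decide +kernel
  · intro _; decide +kernel
  · decide +kernel
  · intro _; decide +kernel

end Pool.Agent.R277.FR
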