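import Pool.Agent.R277.FR.Cert

/-!
# The certificate theorem
-/

set_option autoImplicit false

namespace Pool.Agent.R277.FR

open Finset

/-- the whole certificate function -/
noncomputable def Pf (d : Dat) (α β γ : ℝ) (e : ℤ → ℝ) (x : ℝ) : ℝ := Ff d α β γ x + Qf e x

/-- the numerical hypotheses -/
structure Num (z0 zq : Bool) (d : Dat) (α β γ : ℝ) : Prop where
  blk : blocks z0 zq d 2586 0 = true
  ha : |α - d.a / 1000000000000| ≤ 2 / 10000000000
  hb : |β - d.b / 1000000000000| ≤ 2 / 10000000000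
  hc : |γ - d.c / 1000000000000| ≤ 2 / 10000000000
  hb1 : |(d.b : ℝ)| ≤ 1000000000000
  hc1 : |(d.c : ℝ)| ≤ 1000000000000
  hC : (2 * Real.pi) ^ 2 * (|β| + |γ|) ≤ 41
  h0 : z0 = true → α = β
  hH : α - β * cX - γ * cY = 0
  hQ : zq = true → α - β * qX - γ * qY = 0
  aH : ∑ k ∈ range 43, AI d (138 * rH k) = 0
  aQ : zq = true → ∑ k ∈ range 11, AI d (2586 * rQ k) = 0
  pH : ∀ k < 43, |PT d (138 * rH k)| ≤ 35686800000000000000000000000000000000000
  pQ : zq = true → ∀ k < 11, |PT d (2586 * rQ k)| ≤ 35686800000000000000000000000000000000000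

variable {z0 zq : Bool} {d : Dat} {α β γ : ℝ}

theorem rH_le (k : ℕ) : 138 * rH k ≤ 59478 := by
  have : rH k < 431 := Nat.mod_lt _ (by norm_num)
  omega

theorem rQ_le (k : ℕ) : 2586 * rQ k ≤ 59478 := by
  have : rQ k < 23 := Nat.mod_lt _ (by norm_num)
  omega

/-- first family of partial sums -/
noncomputable def aH' (d : Dat) (α β γ : ℝ) (k : ℕ) : ℝ :=
  -(∑ i ∈ range k, Ff d α β γ (((138 * rH i : ℕ) : ℝ) / 59478))

/-- second family of partial sums -/
noncomputable def aQ' (zq : Bool) (d : Dat) (α β γ : ℝ) (k : ℕ) : ℝ :=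
  -(∑ i ∈ range k, if zq = true then Ff d α β γ (((2586 * rQ i : ℕ) : ℝ) / 59478) else 0)

theorem small_of {p : ℤ} (h : |p| ≤ 35686800000000000000000000000000000000000) {x : ℝ}
    (hx : |x - (p : ℝ) / 35686800000000000000000000000000000000000000000000| ≤ 1 / 1000000000) :
    |x| ≤ 2 / 1000000000 := by
  have h' : |(p : ℝ)| ≤ 35686800000000000000000000000000000000000 := by exact_mod_cast h
  have h2 : |(p : ℝ) / 35686800000000000000000000000000000000000000000000| ≤ 1 / 1000000000 := by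
    rw [abs_div, abs_of_pos (by norm_num :
      (0 : ℝ) < 35686800000000000000000000000000000000000000000000), div_le_iff₀ (by norm_num)]
    linarith
  have := abs_le.mp hx
  have := abs_le.mp h2
  rw [abs_le]
  constructor <;> linarith

theorem Num.ff (h : Num z0 zq d α β γ) {v : ℕ} (hv : v ≤ 59478) :
    |Ff d α β γ ((v : ℝ) / 59478) -
      (PT d v : ℝ) / 35686800000000000000000000000000000000000000000000| ≤ 1 / 1000000000 :=
  Ff_int h.ha h.hb h.hc h.hb1 h.hc1 hv

/-- the correction attached to the data -/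
noncomputable def ee (zq : Bool) (d : Dat) (α β γ : ℝ) : ℤ → ℝ :=
  ef (aH' d α β γ) (aQ' zq d α β γ)

theorem Num.ee_abs (h : Num z0 zq d α β γ) (j : ℤ) : |ee zq d α β γ j| ≤ 5 / 1000000 := by
  have h1 : ∀ i, i < 43 → |aH' d α β γ i| ≤ (43 : ℕ) * (2 / 1000000000) := fun i hi =>
    part_abs (fun k hk => small_of (h.pH k hk) (h.ff (rH_le k))) hi.le (by norm_num)
  have h2 : ∀ i, i < 11 → |aQ' zq d α β γ i| ≤ (11 : ℕ) * (2 / 1000000000) := fun i hi =>
    part_abs (fun k hk => by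
      split_ifs with hz
      · exact small_of (h.pQ hz k hk) (h.ff (rQ_le k))
      · rw [abs_zero]; norm_num) hi.le (by norm_num)
  unfold ee ef
  refine (abs_add_le _ _).trans ?_
  have e1 := ec_abs (p := fun i => 23 * rH i) (by norm_num) h1 j
  have e2 := ec_abs (p := fun i => 431 * rQ i) (by norm_num) h2 j
  norm_num at e1 e2 ⊢
  linarith

theorem Pf_per (d : Dat) (α β γ : ℝ) (a b : ℕ → ℝ) : Function.Periodic (Pf d α β γ (ef a b)) 1 := by
  intro x
  unfold Pf Ff uf Af Qf
  have g2 : gf d (2 * (x + 1)) = gf d (2 * x) := by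
    rw [show 2 * (x + 1) = 2 * x + 1 + 1 by ring, gf_per, gf_per]
  have h3 : hf d (3 * (x + 1)) = hf d (3 * x) := by
    rw [show 3 * (x + 1) = 3 * x + 1 + 1 + 1 by ring, hf_per, hf_per, hf_per]
  have pe := pl_periodic (N := 9913) (ef_per a b)
  have e2 : pl 9913 (ef a b) (2 * (x + 1)) = pl 9913 (ef a b) (2 * x) := by
    rw [show 2 * (x + 1) = 2 * x + 1 + 1 by ring, pe, pe]
  have c : Real.cos (2 * Real.pi * (x + 1)) = Real.cos (2 * Real.pi * x) := by
    rw [mul_add, mul_one, Real.cos_add_two_pi]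
  have s : Real.sin (2 * Real.pi * (x + 1)) = Real.sin (2 * Real.pi * x) := by
    rw [mul_add, mul_one, Real.sin_add_two_pi]
  rw [g2, h3, e2, c, s, gf_per, hf_per, pe]

theorem Num.zero (h : Num z0 zq d α β γ) {v : ℕ} (hv : isZ z0 zq v = true) :
    v ≤ 59478 ∧ Pf d α β γ (ee zq d α β γ) ((v : ℝ) / 59478) = 0 := by
  unfold isZ at hv
  simp only [Bool.or_eq_true, Bool.and_eq_true, List.any_eq_true, List.mem_range, beq_iff_eq]
    at hv
  rcases hv with (⟨-, k, hk, hv⟩ | ⟨hz, hv⟩) | ⟨⟨hz, -⟩, k, hk, hv⟩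
  · have e : v = 138 * rH k := hv
    rw [e]
    refine ⟨rH_le k, ?_⟩
    unfold Pf ee
    rw [Qf_H hk]
    exact cyc (F := fun i => Ff d α β γ (((138 * rH i : ℕ) : ℝ) / 59478)) (sum_H h.hH h.aH) hk
  · have hzero : Pf d α β γ (ee zq d α β γ) 0 = 0 := by
      have := h.h0 hz
      unfold Pf Ff uf Af Qf
      simp only [mul_zero, sub_self, add_zero, Real.cos_zero, Real.sin_zero, mul_one, sub_zero]
      rw [this]; ring
    rcases hv with hv | hv
    · rw [hv]; refine ⟨by norm_num, ?_⟩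
      simpa using hzero
    · rw [hv]; refine ⟨le_rfl, ?_⟩
      have e : (((59478 : ℕ) : ℝ)) / 59478 = 0 + 1 := by norm_num
      rw [e]
      have := Pf_per d α β γ (aH' d α β γ) (aQ' zq d α β γ) 0
      unfold ee
      rw [this]
      exact hzero
  · have e : v = 2586 * rQ k := hv
    rw [e]
    refine ⟨rQ_le k, ?_⟩
    unfold Pf ee
    rw [Qf_Q hk]
    have hs := cyc (F := fun i => if zq = true then Ff d α β γ (((2586 * rQ i : ℕ) : ℝ) / 59478)
      else 0) (n := 11) (by simp only [if_pos hz]; exact sum_Q (h.hQ hz) (h.aQ hz)) hk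
    simp only [if_pos hz] at hs
    unfold aQ'
    simp only [if_pos hz]
    exact hs

theorem Num.vert (h : Num z0 zq d α β γ) {L v : ℕ} (hv : v ≤ 59478)
    (hn : nb z0 zq d L v = true) :
    (isZ z0 zq v = true ∧ Pf d α β γ (ee zq d α β γ) ((v : ℝ) / 59478) = 0) ∨
      (((10999 + 6 * L * L + 5000 * L : ℕ) : ℝ) / 1000000000 ≤ Ff d α β γ ((v : ℝ) / 59478) ∧
        0 < Pf d α β γ (ee zq d α β γ) ((v : ℝ) / 59478)) := by
  unfold nb at hn
  rw [Bool.or_eq_true, decide_eq_true_eq] at hn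
  rcases hn with hn | hn
  · exact Or.inl ⟨hn, (h.zero hn).2⟩
  · right
    have h1 := abs_le.mp (h.ff hv)
    have h2 : ((MT L : ℤ) : ℝ) ≤ PT d v := by exact_mod_cast hn
    have h3 : ((MT L : ℤ) : ℝ) / 35686800000000000000000000000000000000000000000000 =
        (11000 + 6 * L * L + 5000 * L) / 1000000000 := by
      unfold MT; push_cast; ring
    have h4 : ((MT L : ℤ) : ℝ) / 35686800000000000000000000000000000000000000000000 ≤
        (PT d v : ℝ) / 35686800000000000000000000000000000000000000000000 := by gcongr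
    have h5 : ((10999 + 6 * L * L + 5000 * L : ℕ) : ℝ) / 1000000000 ≤
        Ff d α β γ ((v : ℝ) / 59478) := by
      push_cast
      rw [h3] at h4
      linarith
    refine ⟨h5, ?_⟩
    have h6 := abs_le.mp (Qf_abs h.ee_abs ((v : ℝ) / 59478))
    unfold Pf
    have h7 : (10999 : ℝ) / 1000000000 ≤ ((10999 + 6 * L * L + 5000 * L : ℕ) : ℝ) / 1000000000 := by
      push_cast
      gcongr
      have : (0 : ℝ) ≤ 6 * L * L + 5000 * L := by positivity
      linarith
    linarith

theorem Num.seg (h : Num z0 zq d α β γ) {v w : ℕ} (hw : w ≤ 59478)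
    (hg : good z0 zq d v w = true) {x : ℝ} (h1 : (v : ℝ) ≤ 59478 * x) (h2 : 59478 * x ≤ w) :
    0 < Pf d α β γ (ee zq d α β γ) x ∨ (Pf d α β γ (ee zq d α β γ) x = 0 ∧
      ∃ z : ℕ, isZ z0 zq z = true ∧ x = z / 59478) := by
  unfold good at hg
  simp only [Bool.and_eq_true, Bool.not_eq_true', Bool.and_eq_false_iff] at hg
  obtain ⟨⟨⟨hc, nv⟩, nw⟩, hz⟩ := hg
  have hc' := hc
  unfold cell at hc'
  simp only [Bool.and_eq_true, Nat.ble_eq] at hc'
  have hvw : v < w := by omega
  have hL : w - v ≤ 23 := by omega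
  have hvwr : (v : ℝ) < w := by exact_mod_cast hvw
  have av := h.vert (by omega) nv
  have aw := h.vert hw nw
  have hLr : ((w - v : ℕ) : ℝ) = (w : ℝ) - v := by rw [Nat.cast_sub hvw.le]
  rcases eq_or_lt_of_le h1 with e1 | e1
  · have hx : x = (v : ℝ) / 59478 := by rw [e1]; ring
    rw [hx]
    rcases av with ⟨a, b⟩ | ⟨a, b⟩
    · exact Or.inr ⟨b, v, a, rfl⟩
    · exact Or.inl b
  rcases eq_or_lt_of_le h2 with e2 | e2
  · have hx : x = (w : ℝ) / 59478 := by rw [← e2]; ring
    rw [hx]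
    rcases aw with ⟨a, b⟩ | ⟨a, b⟩
    · exact Or.inr ⟨b, w, a, rfl⟩
    · exact Or.inl b
  left
  have hd : (0 : ℝ) < w - v := by linarith
  set t : ℝ := (59478 * x - v) / (w - v) with ht
  have t0 : 0 < t := div_pos (by linarith) hd
  have t1 : t < 1 := by rw [ht, div_lt_one hd]; linarith
  have hx : x = ((1 - t) * v + t * w) / 59478 := by
    rw [ht]; field_simp; ring
  have key := FR.seg (d := d) (α := α) (β := β) (γ := γ) (C := 41) (ε := 5 / 1000000)
    (e := ee zq d α β γ) h.hC (by norm_num) h.ee_abs hc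
    (M := ((10999 + 6 * (w - v) * (w - v) + 5000 * (w - v) : ℕ) : ℝ) / 1000000000)
    (by push_cast; rw [hLr]; nlinarith)
    (av.imp (fun q => q.2) fun q => q.1) (aw.imp (fun q => q.2) fun q => q.1)
    (by
      rcases av with a | a
      · rcases aw with b | b
        · rw [a.1, b.1] at hz; simp at hz
        · exact Or.inr b.1
      · exact Or.inl a.1) t0 t1
  unfold Pf
  rw [hx]
  exact key

/-- **The certificate is nonnegative, and vanishes only on the zero set.** -/
theorem Num.pos01 (h : Num z0 zq d α β γ) {x : ℝ} (h0 : 0 ≤ x) (h1 : x < 1) :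
    0 < Pf d α β γ (ee zq d α β γ) x ∨ (Pf d α β γ (ee zq d α β γ) x = 0 ∧
      ∃ z : ℕ, isZ z0 zq z = true ∧ x = z / 59478) := by
  set k := ⌊2586 * x⌋₊ with hk
  have k1 : (k : ℝ) ≤ 2586 * x := Nat.floor_le (by positivity)
  have k2 : 2586 * x < k + 1 := Nat.lt_floor_add_one _
  have k3 : k < 2586 := by
    have : (k : ℝ) < 2586 := by linarith
    exact_mod_cast this
  have hb := blocks_spec h.blk k (by omega) (by omega)
  have w1 : ((23 * k : ℕ) : ℝ) ≤ 59478 * x := by push_cast; linarith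
  have w2 : 59478 * x ≤ ((23 * k + 23 : ℕ) : ℝ) := by push_cast; linarith
  unfold block at hb
  split_ifs at hb with hm
  · rw [Bool.and_eq_true] at hb
    rcases le_total (59478 * x) (((23 * k + 22) / 431 * 431 : ℕ) : ℝ) with hx | hx
    · exact h.seg (by omega) hb.1 w1 hx
    · exact h.seg (by omega) hb.2 hx w2
  · exact h.seg (by omega) hb w1 w2

theorem Num.pos (h : Num z0 zq d α β γ) (x : ℝ) :
    0 < Pf d α β γ (ee zq d α β γ) x ∨ (Pf d α β γ (ee zq d α β γ) x = 0 ∧
      ∃ z : ℕ, isZ z0 zq z = true ∧ ∃ m : ℤ, x = z / 59478 + m) := by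
  have h1 := h.pos01 (Int.fract_nonneg x) (Int.fract_lt_one x)
  have hp := Pf_per d α β γ (aH' d α β γ) (aQ' zq d α β γ)
  have e : Pf d α β γ (ee zq d α β γ) x = Pf d α β γ (ee zq d α β γ) (Int.fract x) := by
    have := hp.sub_int_mul_eq (x := x) ⌊x⌋
    rw [mul_one] at this
    unfold ee
    rw [Int.fract, this]
  rw [e]
  refine h1.imp id fun q => ⟨q.1, ?_⟩
  obtain ⟨z, hz, hx⟩ := q.2
  exact ⟨z, hz, ⌊x⌋, by rw [← hx]; exact (Int.fract_add_floor x).symm⟩

end Pool.Agent.R277.FR
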