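import Pool.Agent.R277.FR.Main

/-!
# Certificates and invariant measures
-/

set_option autoImplicit false

namespace Pool.Agent.R277.FR

open MeasureTheory

variable {μ : Measure UnitAddCircle} [IsProbabilityMeasure μ]

/-- the certificate function on the circle -/
noncomputable def pc (α β γ : ℝ) (G K : UnitAddCircle → ℝ) (x : UnitAddCircle) : ℝ :=
  α - β * (fourier 1 x : ℂ).re - γ * (fourier 1 x : ℂ).im + (G (2 • x) - G x) + (K (3 • x) - K x)

theorem pc_int (h2 : MeasurePreserving (fun x : UnitAddCircle => 2 • x) μ μ)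
    (h3 : MeasurePreserving (fun x : UnitAddCircle => 3 • x) μ μ) {α β γ : ℝ}
    {G K : UnitAddCircle → ℝ} (mG : Measurable G) (mK : Measurable K) (iG : Integrable G μ)
    (iK : Integrable K μ) :
    Integrable (pc α β γ G K) μ ∧ ∫ x, pc α β γ G K x ∂μ =
      α - β * (∫ x, (fourier 1 x : ℂ) ∂μ).re - γ * (∫ x, (fourier 1 x : ℂ) ∂μ).im := by
  have iG2 : Integrable (fun x => G (2 • x)) μ := h2.integrable_comp_of_integrable iG
  have iK3 : Integrable (fun x => K (3 • x)) μ := h3.integrable_comp_of_integrable iK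
  have iF : Integrable (fun x : UnitAddCircle => (fourier 1 x : ℂ)) μ :=
    (map_continuous _).integrable_of_hasCompactSupport (HasCompactSupport.of_compactSpace _)
  have iR : Integrable (fun x : UnitAddCircle => (fourier 1 x : ℂ).re) μ := iF.re
  have iI : Integrable (fun x : UnitAddCircle => (fourier 1 x : ℂ).im) μ := iF.im
  have hre : ∫ x, (fourier 1 x : ℂ).re ∂μ = (∫ x, (fourier 1 x : ℂ) ∂μ).re := integral_re iF
  have him : ∫ x, (fourier 1 x : ℂ).im ∂μ = (∫ x, (fourier 1 x : ℂ) ∂μ).im := integral_im iF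
  have j1 : Integrable (fun x : UnitAddCircle => α - β * (fourier 1 x : ℂ).re) μ :=
    (integrable_const _).sub (iR.const_mul _)
  have j2 : Integrable (fun x : UnitAddCircle => α - β * (fourier 1 x : ℂ).re -
      γ * (fourier 1 x : ℂ).im) μ := j1.sub (iI.const_mul _)
  have j3 : Integrable (fun x : UnitAddCircle => α - β * (fourier 1 x : ℂ).re -
      γ * (fourier 1 x : ℂ).im + (G (2 • x) - G x)) μ := j2.add (iG2.sub iG)
  have j4 : Integrable (fun x : UnitAddCircle => G (2 • x) - G x) μ := iG2.sub iG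
  have j5 : Integrable (fun x : UnitAddCircle => K (3 • x) - K x) μ := iK3.sub iK
  have j6 : Integrable (fun x : UnitAddCircle => γ * (fourier 1 x : ℂ).im) μ := iI.const_mul _
  have j7 : Integrable (fun x : UnitAddCircle => β * (fourier 1 x : ℂ).re) μ := iR.const_mul _
  refine ⟨j3.add j5, ?_⟩
  unfold pc
  rw [integral_add j3 j5, integral_add j2 j4, integral_sub j1 j6,
    integral_sub (integrable_const _) j7, integral_sub iG2 iG,
    integral_sub iK3 iK, integral_const_mul, integral_const_mul, int_comp h2 mG,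
    int_comp h3 mK, hre, him]
  simp

theorem Num.meas {z0 zq : Bool} {d : Dat} {α β γ : ℝ} (h : Num z0 zq d α β γ)
    (h2 : MeasurePreserving (fun x : UnitAddCircle => 2 • x) μ μ)
    (h3 : MeasurePreserving (fun x : UnitAddCircle => 3 • x) μ μ) :
    0 ≤ α - β * (∫ x, (fourier 1 x : ℂ) ∂μ).re - γ * (∫ x, (fourier 1 x : ℂ) ∂μ).im ∧
    (α - β * (∫ x, (fourier 1 x : ℂ) ∂μ).re - γ * (∫ x, (fourier 1 x : ℂ) ∂μ).im = 0 →
      ∃ F : Set UnitAddCircle, F.Finite ∧ μ Fᶜ = 0) := by
  set e := ee zq d α β γ with he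
  have ep : Function.Periodic (pl 9913 e) 1 := pl_periodic (ef_per _ _)
  have gp : Function.Periodic (fun x => gf d x + pl 9913 e x) 1 := fun x => by
    simp only [gf_per d x, ep x]
  have gm : Measurable fun x => gf d x + pl 9913 e x :=
    ((pl_meas _ _).add (pl_meas _ _)).add (pl_meas _ _)
  have hm : Measurable (hf d) := (pl_meas _ _).add (pl_meas _ _)
  have gb : ∀ x, |gf d x + pl 9913 e x| ≤ 18446745 + 18446745 + 5 / 1000000 := fun x => by
    unfold gf
    refine (abs_add_le _ _).trans (add_le_add ((abs_add_le _ _).trans (add_le_add ?_ ?_)) ?_)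
    · exact pl_abs (Gu_abs _ _) _
    · exact pl_abs (Gu_abs _ _) _
    · exact pl_abs h.ee_abs _
  have hb : ∀ x, |hf d x| ≤ 18446745 + 18446745 := fun x => by
    unfold hf
    refine (abs_add_le _ _).trans (add_le_add ?_ ?_)
    · exact pl_abs (Gu_abs _ _) _
    · exact pl_abs (Gu_abs _ _) _
  set G : UnitAddCircle → ℝ := gp.lift with hG
  set K : UnitAddCircle → ℝ := (hf_per d).lift with hK
  obtain ⟨ip, vp⟩ := pc_int (μ := μ) (α := α) (β := β) (γ := γ) h2 h3 (G := G) (K := K)
    (lift_meas gp gm) (lift_meas (hf_per d) hm) (lift_int gp gm gb)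
    (lift_int (hf_per d) hm hb)
  have hval : ∀ t : ℝ, pc α β γ G K (t : UnitAddCircle) = Pf d α β γ e t := by
    intro t
    have e2 : G (2 • (t : UnitAddCircle)) = gf d (2 * t) + pl 9913 e (2 * t) := by
      have : (2 • (t : UnitAddCircle)) = ((2 * t : ℝ) : UnitAddCircle) := by
        rw [two_mul, two_nsmul]; rfl
      rw [this]; rfl
    have e3 : K (3 • (t : UnitAddCircle)) = hf d (3 * t) := by
      have : (3 • (t : UnitAddCircle)) = ((3 * t : ℝ) : UnitAddCircle) := by
        rw [show (3 : ℝ) * t = t + t + t by ring, show (3 : ℕ) = 2 + 1 by rfl, add_nsmul,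
          two_nsmul, one_nsmul]; rfl
      rw [this]; rfl
    have e4 : G (t : UnitAddCircle) = gf d t + pl 9913 e t := rfl
    have e5 : K (t : UnitAddCircle) = hf d t := rfl
    unfold pc Pf Ff uf Af Qf
    rw [e2, e3, e4, e5, four_re, four_im]
    ring
  have hnn : 0 ≤ pc α β γ G K := by
    intro x
    induction x using QuotientAddGroup.induction_on with
    | H t =>
      have := h.pos t
      change 0 ≤ pc α β γ G K (t : UnitAddCircle)
      rw [hval]
      rcases this with q | q
      · exact q.le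
      · exact q.1.ge
  rw [← vp]
  refine ⟨integral_nonneg hnn, fun h0 => ?_⟩
  rw [integral_eq_zero_iff_of_nonneg hnn ip] at h0
  refine ⟨(fun z : ℕ => (((z : ℝ) / 59478 : ℝ) : UnitAddCircle)) '' {z | z ≤ 59478},
    (Set.finite_le_nat 59478).image _, ?_⟩
  refine measure_mono_null ?_ h0
  intro x hx
  induction x using QuotientAddGroup.induction_on with
  | H t =>
    intro hx0
    apply hx
    have hx1 : pc α β γ G K (t : UnitAddCircle) = 0 := hx0
    rw [hval] at hx1
    rcases h.pos t with q | ⟨-, z, hz, m, hm⟩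
    · exact absurd hx1 q.ne'
    · refine ⟨z, (h.zero hz).1, ?_⟩
      simp only
      rw [hm]
      change (((z : ℝ) / 59478 : ℝ) : UnitAddCircle) = (((z : ℝ) / 59478 + m : ℝ) : UnitAddCircle)
      rw [AddCircle.coe_add]
      have : ((m : ℝ) : UnitAddCircle) = 0 := by
        rw [AddCircle.coe_eq_zero_iff]
        exact ⟨m, by simp⟩
      rw [this, add_zero]

end Pool.Agent.R277.FR
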