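import Mathlib

/-!
# Piecewise linear functions on the circle, and the basic integral inequality
-/

set_option autoImplicit false

namespace Pool.Agent.R277.FR

open MeasureTheory

/-- piecewise linear interpolation of `G` on the grid of step `1 / N` -/
noncomputable def pl (N : ℕ) (G : ℤ → ℝ) (x : ℝ) : ℝ :=
  (1 - Int.fract (N * x)) * G ⌊N * x⌋ + Int.fract (N * x) * G (⌊N * x⌋ + 1)

theorem pl_cell {N : ℕ} {G : ℤ → ℝ} {x : ℝ} {q : ℤ} (h1 : (q : ℝ) ≤ N * x)
    (h2 : N * x ≤ q + 1) : pl N G x = (q + 1 - N * x) * G q + (N * x - q) * G (q + 1) := by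
  rcases lt_or_eq_of_le h2 with h | h
  · have hf : ⌊(N : ℝ) * x⌋ = q := Int.floor_eq_iff.mpr ⟨h1, h⟩
    have hr : Int.fract ((N : ℝ) * x) = N * x - q := by rw [Int.fract, hf]
    rw [pl, hr, hf]; ring
  · have hf : ⌊(N : ℝ) * x⌋ = q + 1 := by
      rw [h]; exact_mod_cast Int.floor_intCast (q + 1)
    have hr : Int.fract ((N : ℝ) * x) = 0 := by
      rw [Int.fract, hf, h]; push_cast; ring
    rw [pl, hr, hf, h]; ring

theorem pl_periodic {N : ℕ} {G : ℤ → ℝ} (hG : ∀ j, G (j + N) = G j) :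
    Function.Periodic (pl N G) 1 := by
  intro x
  have h : (N : ℝ) * (x + 1) = N * x + (N : ℤ) := by push_cast; ring
  unfold pl
  rw [h, Int.fract_add_intCast, Int.floor_add_intCast, hG,
    show ⌊(N : ℝ) * x⌋ + (N : ℤ) + 1 = (⌊(N : ℝ) * x⌋ + 1) + N by ring, hG]

theorem pl_meas (N : ℕ) (G : ℤ → ℝ) : Measurable (pl N G) := by
  have hG : Measurable G := measurable_from_top
  have h1 : Measurable fun x : ℝ => (N : ℝ) * x := measurable_const.mul measurable_id
  have hf : Measurable fun x : ℝ => ⌊(N : ℝ) * x⌋ := Int.measurable_floor.comp h1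
  have hr : Measurable fun x : ℝ => Int.fract ((N : ℝ) * x) := measurable_fract.comp h1
  exact ((measurable_const.sub hr).mul (hG.comp hf)).add
    (hr.mul (hG.comp (hf.add measurable_const)))

theorem pl_abs {N : ℕ} {G : ℤ → ℝ} {B : ℝ} (hB : ∀ j, |G j| ≤ B) (x : ℝ) : |pl N G x| ≤ B := by
  have h0 := Int.fract_nonneg ((N : ℝ) * x)
  have h1 := (Int.fract_lt_one ((N : ℝ) * x)).le
  unfold pl
  have a := abs_le.mp (hB ⌊(N : ℝ) * x⌋)
  have b := abs_le.mp (hB (⌊(N : ℝ) * x⌋ + 1))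
  rw [abs_le]
  constructor <;> nlinarith

/-- on a cell the function is affine -/
theorem pl_affine {N K m v w q : ℕ} {G : ℤ → ℝ} (hK : 0 < K) (hN : 0 < N) (hq : q * K ≤ m * v)
    (hw : m * w ≤ (q + 1) * K) (hvw : v ≤ w) {t : ℝ} (h0 : 0 ≤ t) (h1 : t ≤ 1) :
    pl N G (m * (((1 - t) * v + t * w) / (N * K : ℕ))) =
      (1 - t) * pl N G (m * ((v : ℝ) / (N * K : ℕ))) +
        t * pl N G (m * ((w : ℝ) / (N * K : ℕ))) := by
  have hKr : (0 : ℝ) < K := by exact_mod_cast hK
  have hNr : (0 : ℝ) < N := by exact_mod_cast hN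
  have e : ∀ y : ℝ, (N : ℝ) * (m * (y / (N * K : ℕ))) = m * y / K := by
    intro y; push_cast; field_simp
  have hq' : (q : ℝ) * K ≤ m * v := by exact_mod_cast hq
  have hw' : (m : ℝ) * w ≤ (q + 1) * K := by exact_mod_cast hw
  have hvw' : (v : ℝ) ≤ w := by exact_mod_cast hvw
  have hm : (m : ℝ) * v ≤ m * w := by gcongr
  have cell : ∀ y : ℝ, m * (v : ℝ) ≤ m * y → m * y ≤ m * (w : ℝ) →
      pl N G (m * (y / (N * K : ℕ))) =
        ((q : ℤ) + 1 - m * y / K) * G (q : ℤ) + (m * y / K - (q : ℤ)) * G ((q : ℤ) + 1) := by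
    intro y hy1 hy2
    have ha : ((q : ℤ) : ℝ) ≤ N * (m * (y / (N * K : ℕ))) := by
      rw [e, le_div_iff₀ hKr]; push_cast; linarith
    have hb : (N : ℝ) * (m * (y / (N * K : ℕ))) ≤ ((q : ℤ) : ℝ) + 1 := by
      rw [e, div_le_iff₀ hKr]; push_cast; linarith
    rw [pl_cell ha hb, e]
  rw [cell _ (le_refl _) hm, cell _ hm (le_refl _), cell]
  · field_simp; ring
  · nlinarith
  · nlinarith

/-- value at the integers -/
theorem pl_int {N K y : ℕ} {G : ℤ → ℝ} (hK : 0 < K) (hN : 0 < N) :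
    pl N G ((y : ℝ) / (N * K : ℕ)) =
      (((K - y % K : ℕ) : ℝ) * G ((y / K : ℕ) : ℤ) +
        ((y % K : ℕ) : ℝ) * G (((y / K : ℕ) : ℤ) + 1)) / K := by
  have hKr : (0 : ℝ) < K := by exact_mod_cast hK
  have hNr : (0 : ℝ) < N := by exact_mod_cast hN
  have e : (N : ℝ) * ((y : ℝ) / (N * K : ℕ)) = y / K := by
    push_cast; field_simp
  have hd := Nat.div_add_mod y K
  have hl := Nat.mod_lt y hK
  have hd' : (y : ℝ) = K * (y / K : ℕ) + (y % K : ℕ) := by exact_mod_cast hd.symm
  have hl' : ((y % K : ℕ) : ℝ) < K := by exact_mod_cast hl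
  have h0 : (0 : ℝ) ≤ ((y % K : ℕ) : ℝ) := by positivity
  have hs : ((K - y % K : ℕ) : ℝ) = K - (y % K : ℕ) := by
    rw [Nat.cast_sub hl.le]
  rw [hs]
  generalize hqd : y / K = qq at *
  generalize hrd : y % K = rr at *
  have ha : (((qq : ℕ) : ℤ) : ℝ) ≤ N * ((y : ℝ) / (N * K : ℕ)) := by
    rw [e, le_div_iff₀ hKr, Int.cast_natCast]; nlinarith
  have hb : (N : ℝ) * ((y : ℝ) / (N * K : ℕ)) ≤ (((qq : ℕ) : ℤ) : ℝ) + 1 := by
    rw [e, div_le_iff₀ hKr, Int.cast_natCast]; nlinarith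
  rw [pl_cell ha hb, e, Int.cast_natCast]
  have hy : (y : ℝ) / K = qq + (rr : ℝ) / K := by
    rw [hd']; field_simp
  rw [hy]
  field_simp
  ring

/-- Lipschitz bound -/
theorem pl_lip {N : ℕ} {G : ℤ → ℝ} {B : ℝ} (hB : ∀ j, |G j| ≤ B) {q : ℤ} {x y : ℝ}
    (hx1 : (q : ℝ) ≤ N * x) (hx2 : N * x ≤ q + 1) (hy1 : (q : ℝ) ≤ N * y)
    (hy2 : N * y ≤ q + 1) : |pl N G x - pl N G y| ≤ 2 * B * |N * x - N * y| := by
  rw [pl_cell hx1 hx2, pl_cell hy1 hy2]
  have e : (q + 1 - N * x) * G q + (N * x - q) * G (q + 1) -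
      ((q + 1 - N * y) * G q + (N * y - q) * G (q + 1)) =
      (N * x - N * y) * (G (q + 1) - G q) := by ring
  rw [e, abs_mul, mul_comm]
  have h : |G (q + 1) - G q| ≤ 2 * B := by
    refine (abs_sub _ _).trans ?_
    linarith [hB q, hB (q + 1)]
  gcongr

section circle

variable {μ : Measure UnitAddCircle} [IsProbabilityMeasure μ]

theorem lift_meas {g : ℝ → ℝ} (hg : Function.Periodic g 1) (hm : Measurable g) :
    Measurable (hg.lift : UnitAddCircle → ℝ) := by
  refine measurable_from_quotient.mpr ?_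
  exact hm

theorem lift_int {g : ℝ → ℝ} (hg : Function.Periodic g 1) (hm : Measurable g) {B : ℝ}
    (hB : ∀ x, |g x| ≤ B) : Integrable (hg.lift : UnitAddCircle → ℝ) μ := by
  refine Integrable.mono' (integrable_const B) (lift_meas hg hm).aestronglyMeasurable ?_
  refine Filter.Eventually.of_forall fun x => ?_
  induction x using QuotientAddGroup.induction_on with
  | H z => exact hB z

theorem int_comp {T : UnitAddCircle → UnitAddCircle} (hT : MeasurePreserving T μ μ)
    {f : UnitAddCircle → ℝ} (hf : Measurable f) : ∫ x, f (T x) ∂μ = ∫ x, f x ∂μ := by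
  conv_rhs => rw [← hT.map_eq]
  rw [integral_map hT.measurable.aemeasurable hf.aestronglyMeasurable]

theorem four_re (t : ℝ) : (fourier 1 (t : UnitAddCircle) : ℂ).re = Real.cos (2 * Real.pi * t) := by
  rw [fourier_coe_apply]
  have : 2 * (Real.pi : ℂ) * Complex.I * ((1 : ℤ) : ℂ) * (t : ℂ) / ((1 : ℝ) : ℂ) =
      ((2 * Real.pi * t : ℝ) : ℂ) * Complex.I := by push_cast; ring
  rw [this, Complex.exp_ofReal_mul_I_re]

theorem four_im (t : ℝ) : (fourier 1 (t : UnitAddCircle) : ℂ).im = Real.sin (2 * Real.pi * t) := by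
  rw [fourier_coe_apply]
  have : 2 * (Real.pi : ℂ) * Complex.I * ((1 : ℤ) : ℂ) * (t : ℂ) / ((1 : ℝ) : ℂ) =
      ((2 * Real.pi * t : ℝ) : ℂ) * Complex.I := by push_cast; ring
  rw [this, Complex.exp_ofReal_mul_I_im]

/-- **The inequality given by a pair of bounded functions.** -/
theorem int_ineq (h2 : MeasurePreserving (fun x : UnitAddCircle => 2 • x) μ μ)
    (h3 : MeasurePreserving (fun x : UnitAddCircle => 3 • x) μ μ) {g h : ℝ → ℝ}
    (gp : Function.Periodic g 1) (hp : Function.Periodic h 1) (gm : Measurable g)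
    (hm : Measurable h) {B : ℝ} (gb : ∀ x, |g x| ≤ B) (hb : ∀ x, |h x| ≤ B) {α β γ : ℝ}
    (hpos : ∀ x : ℝ, 0 ≤ α - β * Real.cos (2 * Real.pi * x) - γ * Real.sin (2 * Real.pi * x) +
      (g (2 * x) - g x) + (h (3 * x) - h x)) :
    0 ≤ α - β * (∫ x, (fourier 1 x : ℂ) ∂μ).re - γ * (∫ x, (fourier 1 x : ℂ) ∂μ).im := by
  set G : UnitAddCircle → ℝ := gp.lift with hG
  set K : UnitAddCircle → ℝ := hp.lift with hK
  have iG : Integrable G μ := lift_int gp gm gb
  have iK : Integrable K μ := lift_int hp hm hb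
  have mG : Measurable G := lift_meas gp gm
  have mK : Measurable K := lift_meas hp hm
  have iG2 : Integrable (fun x => G (2 • x)) μ := h2.integrable_comp_of_integrable iG
  have iK3 : Integrable (fun x => K (3 • x)) μ := h3.integrable_comp_of_integrable iK
  have iF : Integrable (fun x : UnitAddCircle => (fourier 1 x : ℂ)) μ :=
    (map_continuous _).integrable_of_hasCompactSupport (HasCompactSupport.of_compactSpace _)
  have iR : Integrable (fun x : UnitAddCircle => (fourier 1 x : ℂ).re) μ := iF.re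
  have iI : Integrable (fun x : UnitAddCircle => (fourier 1 x : ℂ).im) μ := iF.im
  have hre : ∫ x, (fourier 1 x : ℂ).re ∂μ = (∫ x, (fourier 1 x : ℂ) ∂μ).re := integral_re iF
  have him : ∫ x, (fourier 1 x : ℂ).im ∂μ = (∫ x, (fourier 1 x : ℂ) ∂μ).im := integral_im iF
  have key : 0 ≤ ∫ x, (α - β * (fourier 1 x : ℂ).re - γ * (fourier 1 x : ℂ).im +
      (G (2 • x) - G x) + (K (3 • x) - K x)) ∂μ := by
    refine integral_nonneg fun x => ?_
    induction x using QuotientAddGroup.induction_on with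
    | H t =>
      have hh := hpos t
      have e2 : G (2 • (t : UnitAddCircle)) = g (2 * t) := by
        have : (2 • (t : UnitAddCircle)) = ((2 * t : ℝ) : UnitAddCircle) := by
          rw [two_mul, two_nsmul]; rfl
        rw [this]; rfl
      have e3 : K (3 • (t : UnitAddCircle)) = h (3 * t) := by
        have : (3 • (t : UnitAddCircle)) = ((3 * t : ℝ) : UnitAddCircle) := by
          rw [show (3 : ℝ) * t = t + t + t by ring, show (3 : ℕ) = 2 + 1 by rfl, add_nsmul,
            two_nsmul, one_nsmul]; rfl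
        rw [this]; rfl
      have e4 := four_re t
      have e5 := four_im t
      change 0 ≤ α - β * (fourier 1 (t : UnitAddCircle) : ℂ).re -
        γ * (fourier 1 (t : UnitAddCircle) : ℂ).im +
        (G (2 • (t : UnitAddCircle)) - G (t : UnitAddCircle)) +
        (K (3 • (t : UnitAddCircle)) - K (t : UnitAddCircle))
      rw [e2, e3, e4, e5]
      exact hh
  rw [integral_add, integral_add, integral_sub, integral_sub, integral_sub iG2 iG,
    integral_sub iK3 iK, integral_const_mul, integral_const_mul, int_comp h2 mG,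
    int_comp h3 mK, hre, him] at key
  · simpa using key
  · exact integrable_const _
  · exact iR.const_mul _
  · exact (integrable_const _).sub (iR.const_mul _)
  · exact iI.const_mul _
  · exact ((integrable_const _).sub (iR.const_mul _)).sub (iI.const_mul _)
  · exact iG2.sub iG
  · exact (((integrable_const _).sub (iR.const_mul _)).sub (iI.const_mul _)).add (iG2.sub iG)
  · exact iK3.sub iK

end circle

end Pool.Agent.R277.FR
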