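import Pool.Agent.Y315.FC.TwoThree

/-!
# Images of invariant measures, mixtures, the orbit of `1 / 431`, and a finiteness statement
-/

set_option autoImplicit false

namespace Pool.Agent.R277.FR

open MeasureTheory Pool.Agent.Y315.FC
open scoped ENNReal

/-- invariance under `×2` and `×3` -/
def Inv (μ : Measure UnitAddCircle) : Prop :=
  IsProbabilityMeasure μ ∧ MeasurePreserving (fun x : UnitAddCircle => 2 • x) μ μ ∧
    MeasurePreserving (fun x : UnitAddCircle => 3 • x) μ μ

theorem zs_meas (n : ℤ) : Measurable (fun x : UnitAddCircle => n • x) :=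
  (continuous_zsmul n).measurable

theorem push_mp {μ : Measure UnitAddCircle} {p : ℕ} (n : ℤ)
    (h : MeasurePreserving (fun x : UnitAddCircle => p • x) μ μ) :
    MeasurePreserving (fun x : UnitAddCircle => p • x) (μ.map fun x => n • x)
      (μ.map fun x => n • x) := by
  refine ⟨h.measurable, ?_⟩
  rw [Measure.map_map h.measurable (zs_meas n)]
  have : ((fun x : UnitAddCircle => p • x) ∘ fun x => n • x) =
      (fun x => n • x) ∘ fun x : UnitAddCircle => p • x := by
    funext x
    simp only [Function.comp_apply]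
    rw [smul_comm]
  rw [this, ← Measure.map_map (zs_meas n) h.measurable, h.map_eq]

theorem Inv.push {μ : Measure UnitAddCircle} (h : Inv μ) (n : ℤ) : Inv (μ.map fun x => n • x) := by
  have := h.1
  exact ⟨Measure.isProbabilityMeasure_map (zs_meas n).aemeasurable, push_mp n h.2.1,
    push_mp n h.2.2⟩

theorem push_co (μ : Measure UnitAddCircle) (n : ℤ) :
    ∫ x, (fourier 1 x : ℂ) ∂(μ.map fun x => n • x) = ∫ x, (fourier n x : ℂ) ∂μ := by
  rw [integral_map (zs_meas n).aemeasurable (map_continuous _).aestronglyMeasurable]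
  refine integral_congr_ae (Filter.Eventually.of_forall fun x => ?_)
  simp only [fourier_apply, one_smul]

theorem fin_pre {n : ℤ} (hn : n ≠ 0) {F : Set UnitAddCircle} (hF : F.Finite) :
    ((fun x : UnitAddCircle => n • x) ⁻¹' F).Finite := by
  have tor : {u : UnitAddCircle | n • u = 0}.Finite := by
    refine (AddCircle.finite_torsion (p := (1 : ℝ)) (Int.natAbs_pos.mpr hn)).subset ?_
    intro u hu
    simp only [Set.mem_ofPred_eq] at hu ⊢
    rw [← natCast_zsmul]
    rcases Int.natAbs_eq n with h | h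
    · rw [← h]; exact hu
    · have h' : ((n.natAbs : ℕ) : ℤ) = -n := by omega
      rw [h', neg_smul, hu, neg_zero]
  rw [← Set.biUnion_preimage_singleton]
  refine hF.biUnion fun y _ => ?_
  by_cases hy : ∃ x0 : UnitAddCircle, n • x0 = y
  · obtain ⟨x0, hx0⟩ := hy
    refine (tor.image fun u => x0 + u).subset ?_
    intro x hx
    refine ⟨x - x0, ?_, by simp⟩
    simp only [Set.mem_preimage, Set.mem_singleton_iff] at hx
    simp only [Set.mem_ofPred_eq]
    rw [smul_sub, hx, hx0, sub_self]
  · have : (fun x : UnitAddCircle => n • x) ⁻¹' {y} = ∅ := by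
      ext x
      simp only [Set.mem_preimage, Set.mem_singleton_iff, Set.mem_empty_iff_false, iff_false]
      exact fun h => hy ⟨x, h⟩
    rw [this]
    exact Set.finite_empty

theorem fin_push {μ : Measure UnitAddCircle} {n : ℤ} (hn : n ≠ 0)
    (h : ∃ F : Set UnitAddCircle, F.Finite ∧ (μ.map fun x => n • x) Fᶜ = 0) :
    ∃ F : Set UnitAddCircle, F.Finite ∧ μ Fᶜ = 0 := by
  obtain ⟨F, hF, h0⟩ := h
  refine ⟨_, fin_pre hn hF, ?_⟩
  rw [Measure.map_apply (zs_meas n) hF.measurableSet.compl] at h0
  exact h0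

/-- mixtures -/
theorem Inv.mix {μ ν : Measure UnitAddCircle} (hμ : Inv μ) (hν : Inv ν) {s t : ℝ} (hs : 0 ≤ s)
    (ht : 0 ≤ t) (hst : s + t = 1) :
    Inv (ENNReal.ofReal s • μ + ENNReal.ofReal t • ν) ∧
      ∫ x, (fourier 1 x : ℂ) ∂(ENNReal.ofReal s • μ + ENNReal.ofReal t • ν) =
        s * ∫ x, (fourier 1 x : ℂ) ∂μ + t * ∫ x, (fourier 1 x : ℂ) ∂ν := by
  have := hμ.1
  have := hν.1
  have mp : ∀ p : ℕ, MeasurePreserving (fun x : UnitAddCircle => p • x) μ μ →
      MeasurePreserving (fun x : UnitAddCircle => p • x) ν ν →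
      MeasurePreserving (fun x : UnitAddCircle => p • x)
        (ENNReal.ofReal s • μ + ENNReal.ofReal t • ν)
        (ENNReal.ofReal s • μ + ENNReal.ofReal t • ν) := by
    intro p h1 h2
    refine ⟨h1.measurable, ?_⟩
    rw [Measure.map_add _ _ h1.measurable, Measure.map_smul, Measure.map_smul, h1.map_eq,
      h2.map_eq]
  refine ⟨⟨⟨?_⟩, mp 2 hμ.2.1 hν.2.1, mp 3 hμ.2.2 hν.2.2⟩, ?_⟩
  · rw [Measure.add_apply, Measure.smul_apply, Measure.smul_apply, measure_univ, measure_univ]
    simp only [smul_eq_mul, mul_one]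
    rw [← ENNReal.ofReal_add hs ht, hst, ENNReal.ofReal_one]
  · have i1 : Integrable (fun x : UnitAddCircle => (fourier 1 x : ℂ)) (ENNReal.ofReal s • μ) :=
      (int_c (map_continuous _)).smul_measure ENNReal.ofReal_ne_top
    have i2 : Integrable (fun x : UnitAddCircle => (fourier 1 x : ℂ)) (ENNReal.ofReal t • ν) :=
      (int_c (map_continuous _)).smul_measure ENNReal.ofReal_ne_top
    rw [integral_add_measure i1 i2, integral_smul_measure, integral_smul_measure,
      ENNReal.toReal_ofReal hs, ENNReal.toReal_ofReal ht, Complex.real_smul, Complex.real_smul]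

theorem inv_one : ∃ μ : Measure UnitAddCircle, Inv μ ∧ ∫ x, (fourier 1 x : ℂ) ∂μ = 1 := by
  refine ⟨Measure.dirac 0, ⟨inferInstance, ?_, ?_⟩, ?_⟩
  · refine ⟨(continuous_nsmul 2).measurable, ?_⟩
    rw [Measure.map_dirac' (continuous_nsmul 2).measurable, smul_zero]
  · refine ⟨(continuous_nsmul 3).measurable, ?_⟩
    rw [Measure.map_dirac' (continuous_nsmul 3).measurable, smul_zero]
  · simp

/-- the vertex given by the orbit of `1 / 431` -/
noncomputable def vV : ℂ :=
  (1 / 43) * ∑ j ∈ Finset.range 43, Complex.exp (2 * Real.pi * Complex.I * 2 ^ j / 431)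

/-- the vertex given by the orbit of `1 / 23` -/
noncomputable def vW : ℂ := (-1 + Real.sqrt 23 * Complex.I) / 22

theorem vV_eq : vV = (1 / 43) * ∑ j ∈ Finset.range 43,
    (ZMod.stdAddChar (((2 : ℕ) ^ j : ℕ) : ZMod 431) : ℂ) := by
  unfold vV
  congr 1
  refine Finset.sum_congr rfl fun j _ => ?_
  have := ZMod.stdAddChar_coe (N := 431) (((2 : ℕ) ^ j : ℕ) : ℤ)
  rw [Int.cast_natCast] at this
  rw [this]
  congr 1
  push_cast
  ring

/-- the orbit of `1` under multiplication by `2` modulo `431` -/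
def S431 : Finset (ZMod 431) := (Finset.range 43).image fun j => (((2 : ℕ) ^ j : ℕ) : ZMod 431)

theorem S431_card : S431.card = 43 := by decide +kernel

theorem S431_two : S431.image (fun a => ((2 : ℕ) : ZMod 431) * a) = S431 := by decide +kernel

theorem S431_three : S431.image (fun a => ((3 : ℕ) : ZMod 431) * a) = S431 := by decide +kernel

theorem inv_V : ∃ μ : Measure UnitAddCircle, Inv μ ∧ ∫ x, (fourier 1 x : ℂ) ∂μ = vV := by
  have hne : S431.Nonempty := by
    rw [← Finset.card_pos, S431_card]; norm_num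
  refine ⟨orb (N := 431) S431, ⟨orb_prob hne, orb_mp 2 S431_two, orb_mp 3 S431_three⟩, ?_⟩
  rw [orb_co, S431_card, vV_eq]
  have hinj : Set.InjOn (fun j => (((2 : ℕ) ^ j : ℕ) : ZMod 431)) (Finset.range 43 : Set ℕ) := by
    rw [← Finset.card_image_iff]
    have := S431_card
    unfold S431 at this
    rw [this, Finset.card_range]
  unfold S431
  rw [Finset.sum_image hinj]
  push_cast
  ring

end Pool.Agent.R277.FR
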