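import Pool.Agent.R277.FR.Inst
import Pool.Agent.R277.FR.Meas
import Pool.Agent.R277.FR.Hull
import Pool.Agent.R277.FR.Push
import Pool.Agent.R277.FR.EdgeB

/-!
# The exact region of the first Fourier coefficient
-/

set_option autoImplicit false

namespace Pool.Agent.R277.FR

open MeasureTheory Pool.Agent.Y315.FC

theorem expo (N r : ℕ) [NeZero N] : (ZMod.stdAddChar ((r : ℕ) : ZMod N) : ℂ) =
    (Real.cos (2 * Real.pi * ((r : ℝ) / N)) : ℂ) +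
      (Real.sin (2 * Real.pi * ((r : ℝ) / N)) : ℂ) * Complex.I := by
  have := ZMod.stdAddChar_coe (N := N) (r : ℤ)
  rw [Int.cast_natCast] at this
  rw [this, ← exp_re_im]
  congr 1
  push_cast
  ring

theorem vV_parts : vV = (cX : ℂ) + (cY : ℂ) * Complex.I := by
  rw [vV_eq]
  have h : ∀ j ∈ Finset.range 43, (ZMod.stdAddChar (((2 : ℕ) ^ j : ℕ) : ZMod 431) : ℂ) =
      (Real.cos (2 * Real.pi * (((138 * rH j : ℕ) : ℝ) / 59478)) : ℂ) +
      (Real.sin (2 * Real.pi * (((138 * rH j : ℕ) : ℝ) / 59478)) : ℂ) * Complex.I := by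
    intro j _
    have e : (((2 : ℕ) ^ j : ℕ) : ZMod 431) = ((rH j : ℕ) : ZMod 431) := by
      unfold rH; rw [ZMod.natCast_mod]
    rw [e, expo]
    have e2 : (((138 * rH j : ℕ) : ℝ)) / 59478 = (rH j : ℝ) / ((431 : ℕ) : ℝ) := by
      push_cast; ring
    rw [e2]
  rw [Finset.sum_congr rfl h, Finset.sum_add_distrib, ← Finset.sum_mul]
  unfold cX cY
  push_cast
  ring

theorem vV_re : vV.re = cX := by rw [vV_parts]; simp

theorem vV_im : vV.im = cY := by rw [vV_parts]; simp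

theorem q_parts : 11 * ((qX : ℂ) + (qY : ℂ) * Complex.I) =
    ∑ j ∈ Finset.range 11, (ZMod.stdAddChar (1 : ZMod 23) : ℂ) ^ rQ j := by
  have h : ∀ j ∈ Finset.range 11, (ZMod.stdAddChar (1 : ZMod 23) : ℂ) ^ rQ j =
      (Real.cos (2 * Real.pi * (((2586 * rQ j : ℕ) : ℝ) / 59478)) : ℂ) +
      (Real.sin (2 * Real.pi * (((2586 * rQ j : ℕ) : ℝ) / 59478)) : ℂ) * Complex.I := by
    intro j _
    rw [← char_pow, expo]
    have e2 : (((2586 * rQ j : ℕ) : ℝ)) / 59478 = (rQ j : ℝ) / ((23 : ℕ) : ℝ) := by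
      push_cast; ring
    rw [e2]
  rw [Finset.sum_congr rfl h, Finset.sum_add_distrib, ← Finset.sum_mul]
  unfold qX qY
  push_cast
  ring

theorem q_vals : qX = -1 / 22 ∧ qY = Real.sqrt 23 / 22 := by
  set ζ : ℂ := ZMod.stdAddChar (1 : ZMod 23) with hζ
  have hg := geom_zero (N := 23) (by norm_num)
  rw [← hζ] at hg
  obtain ⟨h1, h2⟩ := of_sq (qr_sum ζ hg)
  have hs : 11 * ((qX : ℂ) + (qY : ℂ) * Complex.I) = ζ + ζ ^ 2 + ζ ^ 3 + ζ ^ 4 + ζ ^ 6 + ζ ^ 8 +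
      ζ ^ 9 + ζ ^ 12 + ζ ^ 13 + ζ ^ 16 + ζ ^ 18 := by
    rw [q_parts, ← hζ]
    have e : ∀ j, rQ j = 2 ^ j % 23 := fun _ => rfl
    simp only [Finset.sum_range_succ, Finset.sum_range_zero, zero_add, e]
    norm_num
    ring
  rw [← hs] at h1 h2
  have r1 : (11 * ((qX : ℂ) + (qY : ℂ) * Complex.I)).re = 11 * qX := by simp
  have r2 : (11 * ((qX : ℂ) + (qY : ℂ) * Complex.I)).im = 11 * qY := by simp
  rw [r1] at h1
  rw [r2] at h2
  have hq : 0 ≤ 11 * qY := by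
    have := abs_le.mp qY_num
    linarith
  rw [abs_of_nonneg hq] at h2
  constructor <;> linarith

theorem vW_re : vW.re = -1 / 22 := by
  unfold vW
  have : (-1 + (Real.sqrt 23 : ℂ) * Complex.I) / 22 =
      (((-1 / 22 : ℝ) : ℂ)) + ((Real.sqrt 23 / 22 : ℝ) : ℂ) * Complex.I := by push_cast; ring
  rw [this]; simp

theorem vW_im : vW.im = Real.sqrt 23 / 22 := by
  unfold vW
  have : (-1 + (Real.sqrt 23 : ℂ) * Complex.I) / 22 =
      (((-1 / 22 : ℝ) : ℂ)) + ((Real.sqrt 23 / 22 : ℝ) : ℂ) * Complex.I := by push_cast; ring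
  rw [this]; simp

theorem numV : 0 < vV.im ∧ vV.im < 0.19 ∧ 0.164 < vV.re ∧ vV.re < 0.1642 ∧ 0.1895 < vV.im := by
  have x := abs_le.mp cX_num
  have y := abs_le.mp cY_num
  rw [vV_re, vV_im]
  refine ⟨?_, ?_, ?_, ?_, ?_⟩ <;> linarith

theorem numW : 0.217 < vW.im ∧ vW.im < 0.218 ∧ vW.re < -0.045 ∧ -0.046 < vW.re := by
  have v := abs_le.mp qY_num
  obtain ⟨a, b⟩ := q_vals
  rw [vW_im, vW_re, ← b]
  refine ⟨?_, ?_, ?_, ?_⟩
  · linarith
  · linarith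
  · norm_num
  · norm_num

theorem Dpos : 0 < (vV.re + 1 / 4) * vW.im - (vW.re + 1 / 4) * vV.im := by
  obtain ⟨a1, a2, a3, a4, a5⟩ := numV
  obtain ⟨b1, b2, b3, b4⟩ := numW
  have h1 : 0.414 * 0.217 ≤ (vV.re + 1 / 4) * vW.im := by
    apply mul_le_mul <;> linarith
  have h2 : (vW.re + 1 / 4) * vV.im ≤ 0.205 * 0.19 := by
    apply mul_le_mul <;> linarith
  linarith

/-- the three inequalities with equality cases -/
theorem three {μ : Measure UnitAddCircle} (h : Inv μ) :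
    (0 ≤ vV.im - vV.im * (∫ x, (fourier 1 x : ℂ) ∂μ).re -
      (1 - vV.re) * (∫ x, (fourier 1 x : ℂ) ∂μ).im ∧
    0 ≤ ((vV.re - vW.re) * vW.im + (vW.im - vV.im) * vW.re) -
      (vW.im - vV.im) * (∫ x, (fourier 1 x : ℂ) ∂μ).re -
      (vV.re - vW.re) * (∫ x, (fourier 1 x : ℂ) ∂μ).im ∧
    0 ≤ ((∫ x, (fourier 1 x : ℂ) ∂μ).re + 1 / 4) * vW.im -
      (vW.re + 1 / 4) * (∫ x, (fourier 1 x : ℂ) ∂μ).im) ∧
    ((0 < vV.im - vV.im * (∫ x, (fourier 1 x : ℂ) ∂μ).re -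
      (1 - vV.re) * (∫ x, (fourier 1 x : ℂ) ∂μ).im ∧
    0 < ((vV.re - vW.re) * vW.im + (vW.im - vV.im) * vW.re) -
      (vW.im - vV.im) * (∫ x, (fourier 1 x : ℂ) ∂μ).re -
      (vV.re - vW.re) * (∫ x, (fourier 1 x : ℂ) ∂μ).im ∧
    0 < ((∫ x, (fourier 1 x : ℂ) ∂μ).re + 1 / 4) * vW.im -
      (vW.re + 1 / 4) * (∫ x, (fourier 1 x : ℂ) ∂μ).im) ∨
      ∃ F : Set UnitAddCircle, F.Finite ∧ μ Fᶜ = 0) := by
  have := h.1
  obtain ⟨a1, a2⟩ := num3.meas h.2.1 h.2.2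
  obtain ⟨b1, b2⟩ := num4.meas h.2.1 h.2.2
  obtain ⟨-, c1⟩ := region h.2.1 h.2.2
  have c2 := edgeB h.2.1 h.2.2
  obtain ⟨qx, qy⟩ := q_vals
  set c := ∫ x, (fourier 1 x : ℂ) ∂μ
  rw [vV_re, vV_im, vW_re, vW_im]
  rw [qx, qy] at b1 b2
  have hs : Real.sqrt 23 * Real.sqrt 23 = 23 := Real.mul_self_sqrt (by norm_num)
  have hs0 : 0 < Real.sqrt 23 := Real.sqrt_pos.mpr (by norm_num)
  have e3 : (c.re + 1 / 4) * (Real.sqrt 23 / 22) - (-1 / 22 + 1 / 4) * c.im =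
      Real.sqrt 23 / 2024 * (23 + 92 * c.re - 18 * (Real.sqrt 23 * c.im)) := by
    have : Real.sqrt 23 / 2024 * (23 + 92 * c.re - 18 * (Real.sqrt 23 * c.im)) =
      Real.sqrt 23 / 2024 * (23 + 92 * c.re) - 18 / 2024 * (Real.sqrt 23 * Real.sqrt 23) * c.im := by
      ring
    rw [this, hs]
    ring
  have c1' : 0 ≤ 23 + 92 * c.re - 18 * (Real.sqrt 23 * c.im) := by
    have h1 : c.im ≤ |c.im| := le_abs_self _
    have h2 : 9 * Real.sqrt 23 / 46 * c.im ≤ 9 * Real.sqrt 23 / 46 * |c.im| := by gcongr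
    have h3 : 9 * Real.sqrt 23 / 46 * c.im = 9 / 46 * (Real.sqrt 23 * c.im) := by ring
    rw [h3] at h2
    linarith
  rw [e3]
  refine ⟨⟨a1, b1, by positivity⟩, ?_⟩
  by_cases f1 : cY - cY * c.re - (1 - cX) * c.im = 0
  · exact Or.inr (a2 f1)
  by_cases f2 : ((cX - -1 / 22) * (Real.sqrt 23 / 22) + (Real.sqrt 23 / 22 - cY) * (-1 / 22)) -
      (Real.sqrt 23 / 22 - cY) * c.re - (cX - -1 / 22) * c.im = 0
  · exact Or.inr (b2 f2)
  by_cases f3 : 23 + 92 * c.re - 18 * (Real.sqrt 23 * c.im) = 0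
  · exact Or.inr (c2 f3)
  left
  refine ⟨lt_of_le_of_ne a1 (Ne.symm f1), lt_of_le_of_ne b1 (Ne.symm f2), ?_⟩
  have : 0 < 23 + 92 * c.re - 18 * (Real.sqrt 23 * c.im) := lt_of_le_of_ne c1' (Ne.symm f3)
  positivity

theorem co_neg (μ : Measure UnitAddCircle) (n : ℤ) :
    ∫ x, (fourier (-n) x : ℂ) ∂μ = (starRingEnd ℂ) (∫ x, (fourier n x : ℂ) ∂μ) := by
  rw [← integral_conj]
  refine integral_congr_ae (Filter.Eventually.of_forall fun x => ?_)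
  simp only
  rw [← fourier_neg]

/-- all coefficients -/
theorem all_co {μ : Measure UnitAddCircle} (h : Inv μ) {n : ℤ} (hn : n ≠ 0) :
    ∫ x, (fourier n x : ℂ) ∂μ ∈ hexa vV vW ∧
      (∫ x, (fourier n x : ℂ) ∂μ ∈ interior (hexa vV vW) ∨
        ∃ F : Set UnitAddCircle, F.Finite ∧ μ Fᶜ = 0) := by
  -- a sign such that the imaginary part becomes nonnegative
  obtain ⟨m, hm, e1, e2⟩ : ∃ m : ℤ, m ≠ 0 ∧
      (∫ x, (fourier m x : ℂ) ∂μ).re = (∫ x, (fourier n x : ℂ) ∂μ).re ∧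
      (∫ x, (fourier m x : ℂ) ∂μ).im = |(∫ x, (fourier n x : ℂ) ∂μ).im| := by
    rcases le_total 0 (∫ x, (fourier n x : ℂ) ∂μ).im with h0 | h0
    · exact ⟨n, hn, rfl, (abs_of_nonneg h0).symm⟩
    · refine ⟨-n, neg_ne_zero.mpr hn, ?_, ?_⟩
      · rw [co_neg, Complex.conj_re]
      · rw [co_neg, Complex.conj_im, abs_of_nonpos h0]
  obtain ⟨t1, t2⟩ := three (h.push m)
  rw [push_co, e1, e2] at t1 t2
  constructor
  · exact hexa_of numV.1 Dpos t1.1 t1.2.1 t1.2.2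
  · rcases t2 with t2 | t2
    · exact Or.inl (opn_interior numV.1 Dpos t2)
    · exact Or.inr (fin_push hm t2)

/-- the set of first coefficients -/
theorem region_eq : {c : ℂ | ∃ μ : Measure UnitAddCircle, Inv μ ∧ c = ∫ x, (fourier 1 x : ℂ) ∂μ} =
    hexa vV vW := by
  apply Set.Subset.antisymm
  · rintro c ⟨μ, h, rfl⟩
    exact (all_co h one_ne_zero).1
  · refine convexHull_min ?_ ?_
    · have conj_mem : ∀ c : ℂ, (∃ μ : Measure UnitAddCircle, Inv μ ∧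
          c = ∫ x, (fourier 1 x : ℂ) ∂μ) → ∃ μ : Measure UnitAddCircle, Inv μ ∧
          (starRingEnd ℂ) c = ∫ x, (fourier 1 x : ℂ) ∂μ := by
        rintro c ⟨μ, h, rfl⟩
        exact ⟨_, h.push (-1), by rw [push_co, co_neg]⟩
      have m1 : ∃ μ : Measure UnitAddCircle, Inv μ ∧ (1 : ℂ) = ∫ x, (fourier 1 x : ℂ) ∂μ := by
        obtain ⟨μ, h, e⟩ := inv_one
        exact ⟨μ, h, e.symm⟩
      have m2 : ∃ μ : Measure UnitAddCircle, Inv μ ∧ vV = ∫ x, (fourier 1 x : ℂ) ∂μ := by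
        obtain ⟨μ, h, e⟩ := inv_V
        exact ⟨μ, h, e.symm⟩
      have m3 : ∃ μ : Measure UnitAddCircle, Inv μ ∧ vW = ∫ x, (fourier 1 x : ℂ) ∂μ := by
        obtain ⟨μ, h1, h2, h3, e1, e2⟩ := tw3
        rcases abs_cases (∫ x, (fourier 1 x : ℂ) ∂μ).im with ⟨q, -⟩ | ⟨q, -⟩
        · refine ⟨μ, ⟨h1, h2, h3⟩, Complex.ext ?_ ?_⟩
          · rw [vW_re, e1]
          · rw [vW_im, ← e2, q]
        · refine ⟨_, Inv.push ⟨h1, h2, h3⟩ (-1), Complex.ext ?_ ?_⟩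
          · rw [push_co, co_neg, Complex.conj_re, vW_re, e1]
          · rw [push_co, co_neg, Complex.conj_im, vW_im, ← e2, q]
      have m4 : ∃ μ : Measure UnitAddCircle, Inv μ ∧
          (-1 / 4 : ℂ) = ∫ x, (fourier 1 x : ℂ) ∂μ := by
        obtain ⟨μ, h1, h2, h3, e⟩ := five
        exact ⟨μ, ⟨h1, h2, h3⟩, e.symm⟩
      intro c hc
      simp only [Set.mem_insert_iff, Set.mem_singleton_iff] at hc
      rcases hc with rfl | rfl | rfl | rfl | rfl | rfl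
      · exact m1
      · exact m2
      · exact conj_mem _ m2
      · exact m3
      · exact conj_mem _ m3
      · exact m4
    · rintro a ⟨μ, hμ, rfl⟩ b ⟨ν, hν, rfl⟩ s t hs ht hst
      obtain ⟨h1, h2⟩ := hμ.mix hν hs ht hst
      refine ⟨_, h1, ?_⟩
      rw [h2, Complex.real_smul, Complex.real_smul]

/-- the orbit of `1 / 431` gives a genuine vertex -/
theorem V_not_mem : vV ∉ convexHull ℝ
    ({1, (starRingEnd ℂ) vV, vW, (starRingEnd ℂ) vW, -1 / 4} : Set ℂ) := by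
  obtain ⟨a1, a2, a3, a4, a5⟩ := numV
  obtain ⟨b1, b2, b3, b4⟩ := numW
  refine not_mem ?_ (by linarith) (by linarith) (by linarith) a1
  have h1 : vW.im * (1 - vV.re) ≤ 0.218 * 0.836 := by
    apply mul_le_mul <;> linarith
  have h2 : 1.045 * 0.1895 ≤ (1 - vW.re) * vV.im := by
    apply mul_le_mul <;> linarith
  linarith

end Pool.Agent.R277.FR
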