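import Pool.Agent.R277.FR.Chk

/-!
# The trigonometric tables are correct
-/

set_option autoImplicit false

namespace Pool.Agent.R277.FR

open Complex

/-- entry of a pair of tables as a complex number -/
noncomputable def zt (tc ts k : ℕ) : ℂ := (gt tc k : ℂ) + (gt ts k : ℂ) * I

theorem norm_le_two {a b : ℝ} {R : ℝ} (ha : |a| ≤ R) (hb : |b| ≤ R) : ‖(a : ℂ) + b * I‖ ≤ 2 * R := by
  refine (norm_add_le _ _).trans ?_
  rw [norm_mul, norm_I, mul_one, Complex.norm_real, Complex.norm_real, Real.norm_eq_abs,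
    Real.norm_eq_abs]
  linarith

theorem rec_step {R : ℝ} (hR : 0 < R) {z z' w E ρ Ek : ℂ} {ek e1 : ℝ} (hE : ‖E‖ = 1)
    (hEk : ‖Ek‖ = 1) (h : z' * R = z * w + ρ) (hρ : ‖ρ‖ ≤ 2 * R) (hw : ‖w - R * E‖ ≤ e1)
    (hz : ‖z - R * Ek‖ ≤ ek) (hek : ek ≤ R / 1000) (h1 : 0 ≤ e1) :
    ‖z' - R * (Ek * E)‖ ≤ ek + (101 / 100 * e1 + 2) := by
  have e : (R : ℂ) * (z' - R * (Ek * E)) = (z - R * Ek) * (R * E) + z * (w - R * E) + ρ := by
    linear_combination h
  have hzn : ‖z‖ ≤ 1001 / 1000 * R := by
    have : z = (z - R * Ek) + R * Ek := by ring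
    rw [this]
    refine (norm_add_le _ _).trans ?_
    rw [norm_mul, hEk, Complex.norm_real, Real.norm_eq_abs, abs_of_pos hR]
    linarith
  have hn : ‖(R : ℂ) * (z' - R * (Ek * E))‖ ≤ ek * R + 1001 / 1000 * R * e1 + 2 * R := by
    rw [e]
    refine (norm_add_le _ _).trans ?_
    refine add_le_add ((norm_add_le _ _).trans (add_le_add ?_ ?_)) hρ
    · rw [norm_mul, norm_mul, hE, Complex.norm_real, Real.norm_eq_abs, abs_of_pos hR, mul_one]
      exact mul_le_mul_of_nonneg_right hz hR.le
    · rw [norm_mul]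
      exact mul_le_mul hzn hw (norm_nonneg _) (by positivity)
  rw [norm_mul, Complex.norm_real, Real.norm_eq_abs, abs_of_pos hR] at hn
  have : R * ‖z' - R * (Ek * E)‖ ≤ R * (ek + (101 / 100 * e1 + 2)) := by
    nlinarith
  exact le_of_mul_le_mul_left this hR

theorem rec_all {tc ts : ℕ} {c1 s1 : ℤ} (hok : stepsOk tc ts c1 s1 = true)
    (h0 : zt tc ts 0 = 10000000000000000) {θ e1 : ℝ} (he1 : 0 ≤ e1) (he : e1 ≤ 1000)
    (hw : ‖((c1 : ℂ) + (s1 : ℂ) * I) - 10000000000000000 * exp (θ * I)‖ ≤ e1) (k : ℕ)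
    (hk : k ≤ 244) :
    ‖zt tc ts k - 10000000000000000 * exp ((k * θ : ℝ) * I)‖ ≤ k * (101 / 100 * e1 + 2) := by
  induction k with
  | zero => simp [h0]
  | succ k ih =>
    have ih := ih (by omega)
    unfold stepsOk at hok
    rw [List.all_eq_true] at hok
    have h := hok k (List.mem_range.mpr (by omega))
    simp only [stepOk, Bool.and_eq_true, decide_eq_true_eq] at h
    obtain ⟨⟨⟨a1, a2⟩, a3⟩, a4⟩ := h
    have hE : ‖exp ((θ : ℂ) * I)‖ = 1 := norm_exp_ofReal_mul_I θ
    have hEk : ‖exp (((k * θ : ℝ) : ℂ) * I)‖ = 1 := norm_exp_ofReal_mul_I _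
    have hee : exp (((((k + 1 : ℕ) : ℝ) * θ : ℝ) : ℂ) * I) =
        exp (((k * θ : ℝ) : ℂ) * I) * exp ((θ : ℂ) * I) := by
      rw [← exp_add]; congr 1; push_cast; ring
    set x : ℤ := gt tc (k + 1) * 10000000000000000 - (gt tc k * c1 - gt ts k * s1) with hx
    set y : ℤ := gt ts (k + 1) * 10000000000000000 - (gt ts k * c1 + gt tc k * s1) with hy
    have b1 : |(x : ℝ)| ≤ 10000000000000000 := by
      rw [abs_le]; constructor <;> exact_mod_cast ‹_›
    have b2 : |(y : ℝ)| ≤ 10000000000000000 := by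
      rw [abs_le]; constructor <;> exact_mod_cast ‹_›
    have hR : (0 : ℝ) < 10000000000000000 := by norm_num
    have hk1 : (k : ℝ) ≤ 243 := by exact_mod_cast (by omega : k ≤ 243)
    have hk0 : (0 : ℝ) ≤ k := by positivity
    have := rec_step (R := 10000000000000000) hR (z := zt tc ts k) (z' := zt tc ts (k + 1))
      (w := (c1 : ℂ) + (s1 : ℂ) * I) (E := exp ((θ : ℂ) * I)) (ρ := (x : ℝ) + (y : ℝ) * I)
      (Ek := exp (((k * θ : ℝ) : ℂ) * I)) (ek := k * (101 / 100 * e1 + 2)) (e1 := e1) hE hEk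
      (by
        rw [hx, hy]; unfold zt; push_cast
        ring_nf
        simp only [I_sq]
        ring)
      (norm_le_two b1 b2) (by push_cast; exact hw) (by push_cast; exact_mod_cast ih)
      (by nlinarith) he1
    rw [hee]
    push_cast at this ⊢
    refine this.trans (le_of_eq ?_)
    ring

/-- the unit angle -/
noncomputable def th : ℝ := 2 * Real.pi / 59478

theorem th_ge : 1.0563881279094096097 / 10000 ≤ th := by
  have p1 := Real.pi_gt_d20
  unfold th; rw [div_le_div_iff₀ (by norm_num) (by norm_num)]; nlinarith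

theorem th_le : th ≤ 1.0563881279094096098 / 10000 := by
  have p2 := Real.pi_lt_d20
  unfold th; rw [div_le_div_iff₀ (by norm_num) (by norm_num)]; nlinarith

theorem base_cos : |(9999999944202206 : ℝ) - 10000000000000000 * Real.cos th| ≤ 1 := by
  have t1 := th_ge
  have t2 := th_le
  have hb := Real.cos_bound (x := th) (by rw [abs_le]; constructor <;> linarith)
  have hth : 0 ≤ th := by linarith
  rw [abs_of_nonneg hth] at hb
  have h4 : th ^ 4 ≤ 2 / 10000 ^ 4 := by
    calc th ^ 4 ≤ (1.0563881279094096098 / 10000) ^ 4 := pow_le_pow_left₀ hth t2 4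
      _ ≤ _ := by norm_num
  have h2 : th ^ 2 ≤ (1.0563881279094096098 / 10000) ^ 2 := pow_le_pow_left₀ hth t2 2
  have h2' : (1.0563881279094096097 / 10000) ^ 2 ≤ th ^ 2 :=
    pow_le_pow_left₀ (by norm_num) t1 2
  rw [abs_le] at hb ⊢
  obtain ⟨hb1, hb2⟩ := hb
  norm_num at h4 h2 h2' ⊢
  constructor <;> nlinarith

theorem base_sin : |(1056388125945 : ℝ) - 10000000000000000 * Real.sin th| ≤ 1 := by
  have t1 := th_ge
  have t2 := th_le
  have hb := Real.sin_bound (x := th) (by rw [abs_le]; constructor <;> linarith)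
  have hth : 0 ≤ th := by linarith
  rw [abs_of_nonneg hth] at hb
  have h4 : th ^ 4 ≤ 2 / 10000 ^ 4 := by
    calc th ^ 4 ≤ (1.0563881279094096098 / 10000) ^ 4 := pow_le_pow_left₀ hth t2 4
      _ ≤ _ := by norm_num
  have h2 : th ^ 3 ≤ (1.0563881279094096098 / 10000) ^ 3 := pow_le_pow_left₀ hth t2 3
  have h2' : (1.0563881279094096097 / 10000) ^ 3 ≤ th ^ 3 :=
    pow_le_pow_left₀ (by norm_num) t1 3
  rw [abs_le] at hb ⊢
  obtain ⟨hb1, hb2⟩ := hb
  norm_num at h4 h2 h2' t1 t2 ⊢
  constructor <;> nlinarith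

theorem gt_c1 : gt tcS 1 = 9999999944202206 := by decide +kernel

theorem gt_s1 : gt tsS 1 = 1056388125945 := by decide +kernel

theorem zt_s0 : zt tcS tsS 0 = 10000000000000000 := by
  have h1 : gt tcS 0 = 10000000000000000 := by decide +kernel
  have h2 : gt tsS 0 = 0 := by decide +kernel
  unfold zt; rw [h1, h2]; push_cast; ring

theorem zt_b0 : zt tcB tsB 0 = 10000000000000000 := by
  have h1 : gt tcB 0 = 10000000000000000 := by decide +kernel
  have h2 : gt tsB 0 = 0 := by decide +kernel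
  unfold zt; rw [h1, h2]; push_cast; ring

theorem exp_re_im (t : ℝ) : exp ((t : ℂ) * I) = (Real.cos t : ℂ) + (Real.sin t : ℂ) * I := by
  rw [exp_mul_I, ← ofReal_cos, ← ofReal_sin]

theorem small (k : ℕ) (hk : k ≤ 244) :
    ‖zt tcS tsS k - 10000000000000000 * exp ((k * th : ℝ) * I)‖ ≤ k * (101 / 100 * 2 + 2) := by
  refine rec_all small_ok zt_s0 (by norm_num) (by norm_num) ?_ k hk
  rw [gt_c1, gt_s1, exp_re_im]
  have h := norm_le_two base_cos base_sin
  rw [mul_one] at h
  refine le_of_eq_of_le ?_ h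
  congr 1
  push_cast
  ring

theorem big (k : ℕ) (hk : k ≤ 244) :
    ‖zt tcB tsB k - 10000000000000000 * exp ((k * (244 * th) : ℝ) * I)‖ ≤
      k * (101 / 100 * 981 + 2) := by
  refine rec_all big_ok zt_b0 (by norm_num) (by norm_num) ?_ k hk
  have h := small 244 le_rfl
  unfold zt at h
  push_cast at h ⊢
  refine h.trans ?_
  norm_num

theorem table {v : ℕ} (hv : v ≤ 59478) :
    ‖((cv v : ℂ) + (sv v : ℂ) * I) -
      100000000000000000000000000000000 * exp ((v * th : ℝ) * I)‖ ≤
      2600000000000000000000 := by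
  set a := v / 244 with ha
  set b := v % 244 with hb
  have hab : v = 244 * a + b := by rw [ha, hb]; omega
  have ha' : a ≤ 243 := by omega
  have hb' : b ≤ 243 := by omega
  have h1 := big a (by omega)
  have h2 := small b (by omega)
  have e1 : ((cv v : ℂ) + (sv v : ℂ) * I) = zt tcB tsB a * zt tcS tsS b := by
    unfold cv sv zt
    rw [← ha, ← hb]
    push_cast
    ring_nf
    simp only [I_sq]
    ring
  have e2 : exp (((v * th : ℝ) : ℂ) * I) =
      exp (((a * (244 * th) : ℝ) : ℂ) * I) * exp (((b * th : ℝ) : ℂ) * I) := by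
    rw [← exp_add]; congr 1
    have : (v : ℝ) = 244 * a + b := by exact_mod_cast hab
    rw [this]; push_cast; ring
  rw [e1, e2]
  set z := zt tcB tsB a
  set w := zt tcS tsS b
  set E := exp (((a * (244 * th) : ℝ) : ℂ) * I)
  set F := exp (((b * th : ℝ) : ℂ) * I)
  have hE : ‖E‖ = 1 := norm_exp_ofReal_mul_I _
  have hF : ‖F‖ = 1 := norm_exp_ofReal_mul_I _
  have haR : (a : ℝ) ≤ 243 := by exact_mod_cast ha'
  have hbR : (b : ℝ) ≤ 243 := by exact_mod_cast hb'
  have ha0 : (0 : ℝ) ≤ a := by positivity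
  have hb0 : (0 : ℝ) ≤ b := by positivity
  have h1' : ‖z - 10000000000000000 * E‖ ≤ 243000 := h1.trans (by nlinarith)
  have h2' : ‖w - 10000000000000000 * F‖ ≤ 1000 := h2.trans (by nlinarith)
  have e3 : z * w - 100000000000000000000000000000000 * (E * F) =
      (z - 10000000000000000 * E) * (10000000000000000 * F) +
        z * (w - 10000000000000000 * F) := by ring
  have hz : ‖z‖ ≤ 10000000000243000 := by
    have : z = (z - 10000000000000000 * E) + 10000000000000000 * E := by ring
    rw [this]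
    refine (norm_add_le _ _).trans ?_
    rw [norm_mul, hE]
    have : ‖(10000000000000000 : ℂ)‖ = 10000000000000000 := by
      simp
    rw [this]
    linarith
  rw [e3]
  refine (norm_add_le _ _).trans ?_
  rw [norm_mul, norm_mul, norm_mul, hF]
  have : ‖(10000000000000000 : ℂ)‖ = 10000000000000000 := by
    simp
  rw [this]
  have k1 : ‖z‖ * ‖w - 10000000000000000 * F‖ ≤ 10000000000243000 * 1000 :=
    mul_le_mul hz h2' (norm_nonneg _) (by norm_num)
  nlinarith

theorem table_cos {v : ℕ} (hv : v ≤ 59478) :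
    |(cv v : ℝ) / 100000000000000000000000000000000 - Real.cos (2 * Real.pi * (v / 59478))| ≤
      3 / 100000000000 := by
  have h := (abs_re_le_norm _).trans (table hv)
  rw [exp_re_im] at h
  have e : 2 * Real.pi * ((v : ℝ) / 59478) = v * th := by unfold th; ring
  rw [e]
  have e2 : (((cv v : ℂ) + (sv v : ℂ) * I) - 100000000000000000000000000000000 *
      ((Real.cos (v * th) : ℂ) + (Real.sin (v * th) : ℂ) * I)).re =
      (cv v : ℝ) - 100000000000000000000000000000000 * Real.cos (v * th) := by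
    simp [-ofReal_cos, -ofReal_sin]
  rw [e2] at h
  have e3 : (cv v : ℝ) / 100000000000000000000000000000000 - Real.cos (v * th) =
      ((cv v : ℝ) - 100000000000000000000000000000000 * Real.cos (v * th)) /
        100000000000000000000000000000000 := by field_simp
  rw [e3, abs_div, abs_of_pos (by norm_num : (0 : ℝ) < 100000000000000000000000000000000)]
  rw [div_le_iff₀ (by norm_num)]
  linarith

theorem table_sin {v : ℕ} (hv : v ≤ 59478) :
    |(sv v : ℝ) / 100000000000000000000000000000000 - Real.sin (2 * Real.pi * (v / 59478))| ≤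
      3 / 100000000000 := by
  have h := (abs_im_le_norm _).trans (table hv)
  rw [exp_re_im] at h
  have e : 2 * Real.pi * ((v : ℝ) / 59478) = v * th := by unfold th; ring
  rw [e]
  have e2 : (((cv v : ℂ) + (sv v : ℂ) * I) - 100000000000000000000000000000000 *
      ((Real.cos (v * th) : ℂ) + (Real.sin (v * th) : ℂ) * I)).im =
      (sv v : ℝ) - 100000000000000000000000000000000 * Real.sin (v * th) := by
    simp [-ofReal_cos, -ofReal_sin]
  rw [e2] at h
  have e3 : (sv v : ℝ) / 100000000000000000000000000000000 - Real.sin (v * th) =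
      ((sv v : ℝ) - 100000000000000000000000000000000 * Real.sin (v * th)) /
        100000000000000000000000000000000 := by field_simp
  rw [e3, abs_div, abs_of_pos (by norm_num : (0 : ℝ) < 100000000000000000000000000000000)]
  rw [div_le_iff₀ (by norm_num)]
  linarith

end Pool.Agent.R277.FR
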