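import Pool.Agent.R277.FR.Pl
import Pool.Agent.R277.FR.Trig
import Pool.Agent.R277.FR.Curv

/-!
# Evaluation at the vertices, and the bound on one interval
-/

set_option autoImplicit false

namespace Pool.Agent.R277.FR

/-- global Lipschitz bound -/
theorem pl_lip' {N : ℕ} {G : ℤ → ℝ} {B : ℝ} (hB : ∀ j, |G j| ≤ B) {x y : ℝ} (hxy : x ≤ y) :
    |pl N G y - pl N G x| ≤ 2 * B * (N * y - N * x) := by
  have hB0 : 0 ≤ B := (abs_nonneg _).trans (hB 0)
  have hd : ∀ i j, |G i - G j| ≤ 2 * B := fun i j =>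
    (abs_sub _ _).trans (by linarith [hB i, hB j])
  have hN : (0 : ℝ) ≤ N := by positivity
  have hm : (N : ℝ) * x ≤ N * y := by gcongr
  set q := ⌊(N : ℝ) * x⌋ with hq
  set r := ⌊(N : ℝ) * y⌋ with hr
  have hqr : q ≤ r := Int.floor_le_floor hm
  have q1 : (q : ℝ) ≤ N * x := Int.floor_le _
  have q2 : (N : ℝ) * x ≤ q + 1 := (Int.lt_floor_add_one _).le
  have r1 : (r : ℝ) ≤ N * y := Int.floor_le _
  have r2 : (N : ℝ) * y ≤ r + 1 := (Int.lt_floor_add_one _).le
  rw [pl_cell q1 q2, pl_cell r1 r2]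
  rcases eq_or_lt_of_le hqr with e | e
  · rw [← e]
    have e2 : (q + 1 - N * y) * G q + (N * y - q) * G (q + 1) -
      ((q + 1 - N * x) * G q + (N * x - q) * G (q + 1)) =
      (N * y - N * x) * (G (q + 1) - G q) := by ring
    rw [e2, abs_mul, abs_of_nonneg (by linarith), mul_comm]
    exact mul_le_mul_of_nonneg_right (hd _ _) (by linarith)
  · have hmid : |G r - G (q + 1)| ≤ 2 * B * (r - (q + 1)) := by
      rcases eq_or_lt_of_le (Int.add_one_le_of_lt e) with f | f
      · rw [f]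
        have : (r : ℝ) = q + 1 := by exact_mod_cast f.symm
        rw [this]; simp
      · have : (1 : ℝ) ≤ r - (q + 1) := by
          have : q + 1 + 1 ≤ r := f
          have : ((q + 1 + 1 : ℤ) : ℝ) ≤ r := by exact_mod_cast this
          push_cast at this; linarith
        calc |G r - G (q + 1)| ≤ 2 * B * 1 := by rw [mul_one]; exact hd _ _
          _ ≤ _ := by gcongr
    have e2 : (r + 1 - N * y) * G r + (N * y - r) * G (r + 1) -
      ((q + 1 - N * x) * G q + (N * x - q) * G (q + 1)) =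
      (N * y - r) * (G (r + 1) - G r) + (G r - G (q + 1)) +
        (q + 1 - N * x) * (G (q + 1) - G q) := by ring
    rw [e2]
    have a1 : |(N * y - r) * (G (r + 1) - G r)| ≤ (N * y - r) * (2 * B) := by
      rw [abs_mul, abs_of_nonneg (by linarith)]
      exact mul_le_mul_of_nonneg_left (hd _ _) (by linarith)
    have a2 : |(q + 1 - N * x) * (G (q + 1) - G q)| ≤ (q + 1 - N * x) * (2 * B) := by
      rw [abs_mul, abs_of_nonneg (by linarith)]
      exact mul_le_mul_of_nonneg_left (hd _ _) (by linarith)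
    refine (abs_add_three _ _ _).trans ?_
    linarith

/-- table as a function on the integers -/
noncomputable def Gu (n tb : ℕ) (j : ℤ) : ℝ := (gt tb (j % n).toNat : ℝ) / 1000000000000

theorem Gu_per (n tb : ℕ) (j : ℤ) : Gu n tb (j + n) = Gu n tb j := by
  unfold Gu; rw [Int.add_emod_right]

theorem Gu_nat (n tb k : ℕ) : Gu n tb (k : ℤ) = (gt tb (k % n) : ℝ) / 1000000000000 := by
  unfold Gu
  rw [← Int.natCast_mod, Int.toNat_natCast]

theorem Gu_abs (n tb : ℕ) (j : ℤ) : |Gu n tb j| ≤ 18446745 := by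
  unfold Gu
  rw [abs_div, abs_of_pos (by norm_num : (0 : ℝ) < 1000000000000), div_le_iff₀ (by norm_num)]
  have h1 : gt tb (j % n).toNat ≤ 18446744073709551616 := by
    unfold gt
    have := Nat.mod_lt (tb >>> (64 * (j % n).toNat)) (by norm_num : 0 < 18446744073709551616)
    omega
  have h2 : -1152921504606846976 ≤ gt tb (j % n).toNat := by
    unfold gt
    omega
  have h1' : (gt tb (j % n).toNat : ℝ) ≤ 18446744073709551616 := by exact_mod_cast h1
  have h2' : -1152921504606846976 ≤ (gt tb (j % n).toNat : ℝ) := by exact_mod_cast h2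
  rw [abs_le]
  constructor <;> linarith

theorem ev_int {N K n tb y : ℕ} (hK : 0 < K) (hN : 0 < N) (_hn : N = n) (hT : N * K = 59478) :
    pl N (Gu n tb) ((y : ℝ) / 59478) = (ev K n tb y : ℝ) / (K * 1000000000000) := by
  have h := pl_int (N := N) (K := K) (y := y) (G := Gu n tb) hK hN
  rw [hT] at h
  have e : (((59478 : ℕ) : ℝ)) = 59478 := by norm_num
  rw [e] at h
  rw [h]
  have hKr : (K : ℝ) ≠ 0 := by positivity
  have e2 : (((y / K : ℕ) : ℤ) + 1) = ((y / K + 1 : ℕ) : ℤ) := by push_cast; rfl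
  rw [e2, Gu_nat, Gu_nat]
  unfold ev
  simp only [Int.cast_add, Int.cast_mul, Int.cast_natCast]
  field_simp

/-- first function -/
noncomputable def gf (d : Dat) (x : ℝ) : ℝ := pl 431 (Gu 431 d.ug) x + pl 23 (Gu 23 d.vg) x

/-- second function -/
noncomputable def hf (d : Dat) (x : ℝ) : ℝ := pl 862 (Gu 862 d.uh) x + pl 23 (Gu 23 d.vh) x

/-- the coboundary -/
noncomputable def Af (d : Dat) (x : ℝ) : ℝ := (gf d (2 * x) - gf d x) + (hf d (3 * x) - hf d x)

theorem Af_int (d : Dat) (v : ℕ) :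
    Af d ((v : ℝ) / 59478) = (AI d v : ℝ) / 356868000000000000 := by
  have m2 : 2 * ((v : ℝ) / 59478) = ((2 * v : ℕ) : ℝ) / 59478 := by push_cast; ring
  have m3 : 3 * ((v : ℝ) / 59478) = ((3 * v : ℕ) : ℝ) / 59478 := by push_cast; ring
  unfold Af gf hf
  rw [m2, m3]
  have i1 : ∀ (y : ℕ) (tb : ℕ), pl 431 (Gu 431 tb) ((y : ℝ) / 59478) =
      (ev 138 431 tb y : ℝ) / ((138 : ℕ) * 1000000000000) := fun y tb =>
    ev_int (by norm_num) (by norm_num) rfl (by norm_num)
  have i2 : ∀ (y : ℕ) (tb : ℕ), pl 862 (Gu 862 tb) ((y : ℝ) / 59478) =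
      (ev 69 862 tb y : ℝ) / ((69 : ℕ) * 1000000000000) := fun y tb =>
    ev_int (by norm_num) (by norm_num) rfl (by norm_num)
  have i3 : ∀ (y : ℕ) (tb : ℕ), pl 23 (Gu 23 tb) ((y : ℝ) / 59478) =
      (ev 2586 23 tb y : ℝ) / ((2586 : ℕ) * 1000000000000) := fun y tb =>
    ev_int (by norm_num) (by norm_num) rfl (by norm_num)
  rw [i1, i1, i2, i2, i3, i3, i3, i3]
  unfold AI
  push_cast
  ring

theorem pl_aff {N K m v w : ℕ} {G : ℤ → ℝ} (hK : 0 < K) (hN : 0 < N) (hT : N * K = 59478)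
    (hw : m * w ≤ (m * v / K + 1) * K) (hvw : v ≤ w) {t : ℝ} (h0 : 0 ≤ t) (h1 : t ≤ 1) :
    pl N G (m * (((1 - t) * v + t * w) / 59478)) =
      (1 - t) * pl N G (m * ((v : ℝ) / 59478)) + t * pl N G (m * ((w : ℝ) / 59478)) := by
  have h := pl_affine (N := N) (K := K) (m := m) (G := G) hK hN (Nat.div_mul_le_self (m * v) K)
    hw hvw h0 h1
  rw [hT] at h
  have e : (((59478 : ℕ) : ℝ)) = 59478 := by norm_num
  rw [e] at h
  exact h

theorem Af_aff {d : Dat} {v w : ℕ} (hc : cell v w = true) {t : ℝ} (h0 : 0 ≤ t) (h1 : t ≤ 1) :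
    Af d (((1 - t) * v + t * w) / 59478) =
      (1 - t) * Af d ((v : ℝ) / 59478) + t * Af d ((w : ℝ) / 59478) := by
  unfold cell at hc
  simp only [Bool.and_eq_true, Nat.ble_eq] at hc
  obtain ⟨⟨⟨⟨⟨⟨⟨⟨c1, c2⟩, c3⟩, c4⟩, c5⟩, c6⟩, c7⟩, c8⟩, c9⟩ := hc
  have hvw : v ≤ w := by omega
  have a1 := pl_aff (N := 431) (K := 138) (m := 1) (G := Gu 431 d.ug) (by norm_num)
    (by norm_num) (by norm_num) (by simpa using c1) hvw h0 h1
  have a2 := pl_aff (N := 431) (K := 138) (m := 2) (G := Gu 431 d.ug) (by norm_num)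
    (by norm_num) (by norm_num) c2 hvw h0 h1
  have a3 := pl_aff (N := 862) (K := 69) (m := 1) (G := Gu 862 d.uh) (by norm_num)
    (by norm_num) (by norm_num) (by simpa using c3) hvw h0 h1
  have a4 := pl_aff (N := 862) (K := 69) (m := 3) (G := Gu 862 d.uh) (by norm_num)
    (by norm_num) (by norm_num) c4 hvw h0 h1
  have a5 := pl_aff (N := 23) (K := 2586) (m := 1) (G := Gu 23 d.vg) (by norm_num)
    (by norm_num) (by norm_num) (by simpa using c5) hvw h0 h1
  have a6 := pl_aff (N := 23) (K := 2586) (m := 2) (G := Gu 23 d.vg) (by norm_num)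
    (by norm_num) (by norm_num) c6 hvw h0 h1
  have a7 := pl_aff (N := 23) (K := 2586) (m := 1) (G := Gu 23 d.vh) (by norm_num)
    (by norm_num) (by norm_num) (by simpa using c5) hvw h0 h1
  have a8 := pl_aff (N := 23) (K := 2586) (m := 3) (G := Gu 23 d.vh) (by norm_num)
    (by norm_num) (by norm_num) c7 hvw h0 h1
  simp only [Nat.cast_one, one_mul, Nat.cast_ofNat] at a1 a2 a3 a4 a5 a6 a7 a8
  unfold Af gf hf
  rw [a1, a2, a3, a4, a5, a6, a7, a8]
  ring

/-- the main part of the certificate -/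
noncomputable def Ff (d : Dat) (α β γ x : ℝ) : ℝ := uf α β γ x + Af d x

theorem Ff_int {d : Dat} {α β γ : ℝ} (ha : |α - d.a / 1000000000000| ≤ 2 / 10000000000)
    (hb : |β - d.b / 1000000000000| ≤ 2 / 10000000000)
    (hc : |γ - d.c / 1000000000000| ≤ 2 / 10000000000)
    (hb1 : |(d.b : ℝ)| ≤ 1000000000000) (hc1 : |(d.c : ℝ)| ≤ 1000000000000) {v : ℕ}
    (hv : v ≤ 59478) :
    |Ff d α β γ ((v : ℝ) / 59478) -
      (PT d v : ℝ) / 35686800000000000000000000000000000000000000000000| ≤ 1 / 1000000000 := by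
  have t1 := table_cos hv
  have t2 := table_sin hv
  unfold Ff uf
  rw [Af_int]
  set C := Real.cos (2 * Real.pi * ((v : ℝ) / 59478))
  set S := Real.sin (2 * Real.pi * ((v : ℝ) / 59478))
  have hC : |C| ≤ 1 := Real.abs_cos_le_one _
  have hS : |S| ≤ 1 := Real.abs_sin_le_one _
  have e : (PT d v : ℝ) / 35686800000000000000000000000000000000000000000000 =
      (d.a : ℝ) / 1000000000000 -
      (d.b : ℝ) / 1000000000000 * ((cv v : ℝ) / 100000000000000000000000000000000) -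
      (d.c : ℝ) / 1000000000000 * ((sv v : ℝ) / 100000000000000000000000000000000) +
      (AI d v : ℝ) / 356868000000000000 := by
    unfold PT; push_cast; ring
  rw [e]
  set a' := (d.a : ℝ) / 1000000000000
  set b' := (d.b : ℝ) / 1000000000000 with hb'
  set c' := (d.c : ℝ) / 1000000000000 with hc'
  set C' := (cv v : ℝ) / 100000000000000000000000000000000
  set S' := (sv v : ℝ) / 100000000000000000000000000000000
  have hb'1 : |b'| ≤ 1 := by
    rw [hb', abs_div, abs_of_pos (by norm_num : (0 : ℝ) < 1000000000000), div_le_iff₀ (by norm_num)]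
    linarith
  have hc'1 : |c'| ≤ 1 := by
    rw [hc', abs_div, abs_of_pos (by norm_num : (0 : ℝ) < 1000000000000), div_le_iff₀ (by norm_num)]
    linarith
  have e2 : α - β * C - γ * S + (AI d v : ℝ) / 356868000000000000 -
      (a' - b' * C' - c' * S' + (AI d v : ℝ) / 356868000000000000) =
      (α - a') + (-((β - b') * C)) + (b' * (C' - C)) + (-((γ - c') * S)) + c' * (S' - S) := by ring
  rw [e2]
  have m1 : |-((β - b') * C)| ≤ 2 / 10000000000 * 1 := by
    rw [abs_neg, abs_mul]; exact mul_le_mul hb hC (abs_nonneg _) (by norm_num)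
  have m2 : |b' * (C' - C)| ≤ 1 * (3 / 100000000000) := by
    rw [abs_mul]; exact mul_le_mul hb'1 t1 (abs_nonneg _) (by norm_num)
  have m3 : |-((γ - c') * S)| ≤ 2 / 10000000000 * 1 := by
    rw [abs_neg, abs_mul]; exact mul_le_mul hc hS (abs_nonneg _) (by norm_num)
  have m4 : |c' * (S' - S)| ≤ 1 * (3 / 100000000000) := by
    rw [abs_mul]; exact mul_le_mul hc'1 t2 (abs_nonneg _) (by norm_num)
  refine (abs_add_le _ _).trans ?_
  refine (add_le_add_left (abs_add_le _ _) _).trans ?_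
  refine (add_le_add_left (add_le_add_left (abs_add_le _ _) _) _).trans ?_
  refine (add_le_add_left (add_le_add_left (add_le_add_left (abs_add_le _ _) _) _) _).trans ?_
  norm_num at m1 m2 m3 m4 ha ⊢
  linarith

/-- the correction -/
noncomputable def Qf (e : ℤ → ℝ) (x : ℝ) : ℝ := pl 9913 e (2 * x) - pl 9913 e x

theorem Qf_abs {e : ℤ → ℝ} {ε : ℝ} (he : ∀ j, |e j| ≤ ε) (x : ℝ) : |Qf e x| ≤ 2 * ε := by
  unfold Qf
  refine (abs_sub _ _).trans ?_
  linarith [pl_abs (N := 9913) he (2 * x), pl_abs (N := 9913) he x]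

theorem Qf_lip {e : ℤ → ℝ} {ε : ℝ} (he : ∀ j, |e j| ≤ ε) {x y : ℝ} (hxy : x ≤ y) :
    |Qf e y - Qf e x| ≤ ε * (59478 * (y - x)) := by
  have h1 := pl_lip' (N := 9913) he (x := 2 * x) (y := 2 * y) (by linarith)
  have h2 := pl_lip' (N := 9913) he hxy
  unfold Qf
  have e2 : pl 9913 e (2 * y) - pl 9913 e y - (pl 9913 e (2 * x) - pl 9913 e x) =
      (pl 9913 e (2 * y) - pl 9913 e (2 * x)) - (pl 9913 e y - pl 9913 e x) := by ring
  rw [e2]
  refine (abs_sub _ _).trans ?_
  push_cast at h1 h2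
  linarith

/-- **The bound on one interval.** -/
theorem seg {d : Dat} {α β γ C ε : ℝ} {e : ℤ → ℝ} (hC : (2 * Real.pi) ^ 2 * (|β| + |γ|) ≤ C)
    (hC0 : 0 ≤ C) (he : ∀ j, |e j| ≤ ε) {v w : ℕ} (hc : cell v w = true) {M : ℝ}
    (hM : 2 * ε + C / 2 * (((w : ℝ) - v) / 59478) ^ 2 + ε * ((w : ℝ) - v) < M)
    (hv : Ff d α β γ ((v : ℝ) / 59478) + Qf e ((v : ℝ) / 59478) = 0 ∨
      M ≤ Ff d α β γ ((v : ℝ) / 59478))
    (hw : Ff d α β γ ((w : ℝ) / 59478) + Qf e ((w : ℝ) / 59478) = 0 ∨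
      M ≤ Ff d α β γ ((w : ℝ) / 59478))
    (hn : M ≤ Ff d α β γ ((v : ℝ) / 59478) ∨ M ≤ Ff d α β γ ((w : ℝ) / 59478))
    {t : ℝ} (h0 : 0 < t) (h1 : t < 1) :
    0 < Ff d α β γ (((1 - t) * v + t * w) / 59478) + Qf e (((1 - t) * v + t * w) / 59478) := by
  have hε : 0 ≤ ε := (abs_nonneg _).trans (he 0)
  have hvw : (v : ℝ) < w := by
    unfold cell at hc
    simp only [Bool.and_eq_true, Nat.ble_eq] at hc
    exact_mod_cast (by omega : v < w)
  set x := ((1 - t) * (v : ℝ) + t * w) / 59478 with hx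
  have hxe : x = (1 - t) * ((v : ℝ) / 59478) + t * ((w : ℝ) / 59478) := by rw [hx]; ring
  have hch := uf_chord (α := α) hC ((v : ℝ) / 59478) ((w : ℝ) / 59478) h0.le h1.le
  rw [← hxe] at hch
  have haf := Af_aff (d := d) hc h0.le h1.le
  rw [← hx] at haf
  set L := ((w : ℝ) - v) / 59478 with hL
  have hLe : (w : ℝ) / 59478 - (v : ℝ) / 59478 = L := by rw [hL]; ring
  rw [hLe] at hch
  have hF : (1 - t) * Ff d α β γ ((v : ℝ) / 59478) + t * Ff d α β γ ((w : ℝ) / 59478) -
      C / 2 * (t * (1 - t)) * L ^ 2 ≤ Ff d α β γ x := by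
    unfold Ff
    rw [haf]
    linarith
  have hL0 : 0 ≤ L := div_nonneg (by linarith) (by norm_num)
  have hCL : 0 ≤ C / 2 * L ^ 2 := by positivity
  have qx := abs_le.mp (Qf_abs he x)
  have qv := abs_le.mp (Qf_abs he ((v : ℝ) / 59478))
  have qw := abs_le.mp (Qf_abs he ((w : ℝ) / 59478))
  have hxv : x - (v : ℝ) / 59478 = t * L := by rw [hx, hL]; ring
  have hwx : (w : ℝ) / 59478 - x = (1 - t) * L := by rw [hx, hL]; ring
  have l1 := abs_le.mp (Qf_lip he (x := (v : ℝ) / 59478) (y := x)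
    (by nlinarith [mul_nonneg h0.le hL0]))
  have l2 := abs_le.mp (Qf_lip he (x := x) (y := (w : ℝ) / 59478)
    (by nlinarith [mul_nonneg (by linarith : (0 : ℝ) ≤ 1 - t) hL0]))
  rw [hxv] at l1
  rw [hwx] at l2
  have hLL : 59478 * L = w - v := by rw [hL]; ring
  have e1 : ε * (59478 * (t * L)) = t * (ε * (w - v)) := by rw [← hLL]; ring
  have e2 : ε * (59478 * ((1 - t) * L)) = (1 - t) * (ε * (w - v)) := by rw [← hLL]; ring
  rw [e1] at l1
  rw [e2] at l2
  set Fv := Ff d α β γ ((v : ℝ) / 59478)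
  set Fw := Ff d α β γ ((w : ℝ) / 59478)
  set Fx := Ff d α β γ x
  set Qv := Qf e ((v : ℝ) / 59478)
  set Qw := Qf e ((w : ℝ) / 59478)
  set Qx := Qf e x
  have ht1 : 0 < 1 - t := by linarith
  have hew : 0 ≤ ε * ((w : ℝ) - v) := mul_nonneg hε (by linarith)
  set E := ε * ((w : ℝ) - v)
  set K := C / 2 * L ^ 2
  have hKt : C / 2 * (t * (1 - t)) * L ^ 2 = t * (1 - t) * K := by ring
  rw [hKt] at hF
  -- zero at `v`
  have case_v : Fv + Qv = 0 → M ≤ Fw → 0 < Fx + Qx := by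
    intro a b
    have k1 : 0 < t * (M - 2 * ε - K - E) := mul_pos h0 (by linarith)
    have k2 : t * M ≤ t * Fw := mul_le_mul_of_nonneg_left b h0.le
    have k3 : 0 ≤ t * (t * K) := by positivity
    have k4 : t * Qv ≥ t * (-(2 * ε)) := mul_le_mul_of_nonneg_left qv.1 h0.le
    have hFv : Fv = -Qv := by linarith
    rw [hFv] at hF
    linarith [l1.1]
  have case_w : Fw + Qw = 0 → M ≤ Fv → 0 < Fx + Qx := by
    intro a b
    have k1 : 0 < (1 - t) * (M - 2 * ε - K - E) := mul_pos ht1 (by linarith)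
    have k2 : (1 - t) * M ≤ (1 - t) * Fv := mul_le_mul_of_nonneg_left b ht1.le
    have k3 : 0 ≤ (1 - t) * ((1 - t) * K) := by positivity
    have k4 : (1 - t) * Qw ≥ (1 - t) * (-(2 * ε)) := mul_le_mul_of_nonneg_left qw.1 ht1.le
    have hFw : Fw = -Qw := by linarith
    rw [hFw] at hF
    linarith [l2.2]
  rcases hv with a | a
  · rcases hn with b | b
    · rcases hw with c | c
      · exact case_w c b
      · exact case_v a c
    · exact case_v a b
  · rcases hw with c | c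
    · exact case_w c a
    · have k1 : (1 - t) * M ≤ (1 - t) * Fv := mul_le_mul_of_nonneg_left a ht1.le
      have k2 : t * M ≤ t * Fw := mul_le_mul_of_nonneg_left c h0.le
      have k3 : t * (1 - t) * K ≤ 1 * K := by
        refine mul_le_mul_of_nonneg_right ?_ hCL
        nlinarith
      linarith [qx.1]

end Pool.Agent.R277.FR
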