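import Pool.Agent.Y253.TR.ValMain
import Pool.Agent.R277.FR.Region

/-!
# The exact region of the values of the tracial states
-/

set_option autoImplicit false

open MeasureTheory Filter Topology Finset
open scoped ComplexOrder ComplexConjugate ENNReal

namespace Pool.Agent.R277.FR

open Pool.Agent.W763.Tr Pool.Agent.TH654.FC Pool.Agent.Y315.FC
open Pool.Agent.Y253.TR hiding V

/-- a jointly invariant measure with finite support is carried by a finite group -/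
theorem fin_tor {μ : Measure UnitAddCircle} (h : Inv μ)
    (hF : ∃ F : Set UnitAddCircle, F.Finite ∧ μ Fᶜ = 0) :
    ∃ M : ℕ, 1 ≤ M ∧ ∀ m : ℤ, ∫ x, (fourier (M * m) x : ℂ) ∂μ = 1 := by
  classical
  obtain ⟨F, hFf, hF0⟩ := hF
  have := h.1
  set A : Set UnitAddCircle := {x | x ∈ F ∧ μ {x} ≠ 0} with hA
  have hAf : A.Finite := hFf.subset fun x hx => hx.1
  have hA0 : μ Aᶜ = 0 := by
    have hsub : Aᶜ ⊆ Fᶜ ∪ ⋃ x ∈ {x | x ∈ F ∧ μ {x} = 0}, {x} := by
      intro x hx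
      by_cases hxF : x ∈ F
      · right
        simp only [Set.mem_iUnion]
        refine ⟨x, ⟨hxF, ?_⟩, rfl⟩
        by_contra hne
        exact hx ⟨hxF, hne⟩
      · exact Or.inl hxF
    refine measure_mono_null hsub (measure_union_null hF0 ?_)
    refine (measure_biUnion_null_iff (hFf.subset fun x hx => hx.1).countable).mpr ?_
    intro x hx
    exact hx.2
  have step : ∀ x ∈ A, 2 • x ∈ A := by
    rintro x ⟨hxF, hx0⟩
    have hle : μ {x} ≤ μ {2 • x} := by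
      have e : μ {2 • x} = μ ((fun y : UnitAddCircle => 2 • y) ⁻¹' {2 • x}) :=
        (h.2.1.measure_preimage (measurableSet_singleton _).nullMeasurableSet).symm
      rw [e]
      exact measure_mono (by intro y hy; rw [Set.mem_singleton_iff] at hy; rw [hy]; rfl)
    have hne : μ {2 • x} ≠ 0 := fun h0 => hx0 (le_antisymm (h0 ▸ hle) (zero_le))
    refine ⟨?_, hne⟩
    by_contra hc
    exact hne (measure_mono_null (by
      intro y hy; rw [Set.mem_singleton_iff] at hy; rw [hy]; exact hc) hF0)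
  have iter : ∀ (k : ℕ) (x : UnitAddCircle), x ∈ A → (2 ^ k) • x ∈ A := by
    intro k
    induction k with
    | zero => intro x hx; simpa using hx
    | succ k ih =>
      intro x hx
      have := ih _ (step x hx)
      rwa [← mul_smul, ← pow_succ] at this
  have tor : ∀ x ∈ A, 0 < addOrderOf x := by
    intro x hx
    have : Finite A := hAf
    obtain ⟨i, j, hij, heq⟩ := Finite.exists_ne_map_eq_of_infinite
      (fun k : ℕ => (⟨(2 ^ k) • x, iter k x hx⟩ : A))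
    simp only [Subtype.mk.injEq] at heq
    wlog hlt : i < j generalizing i j
    · exact this j i (Ne.symm hij) heq.symm (lt_of_le_of_ne (not_lt.mp hlt) (Ne.symm hij))
    have hp : 2 ^ i < 2 ^ j := Nat.pow_lt_pow_right (by norm_num) hlt
    rw [addOrderOf_pos_iff, isOfFinAddOrder_iff_nsmul_eq_zero]
    refine ⟨2 ^ j - 2 ^ i, by omega, ?_⟩
    have e : (2 ^ j - 2 ^ i) • x + (2 ^ i) • x = (2 ^ j) • x := by
      rw [← add_smul]; congr 1; omega
    rw [heq] at e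
    exact left_eq_add.mp (by rw [add_comm] at e; exact e.symm)
  refine ⟨∏ x ∈ hAf.toFinset, addOrderOf x, ?_, fun m => ?_⟩
  · exact Nat.one_le_iff_ne_zero.mpr (prod_ne_zero_iff.mpr fun x hx =>
      (tor x (hAf.mem_toFinset.mp hx)).ne')
  · set M := ∏ x ∈ hAf.toFinset, addOrderOf x
    have hae : ∀ᵐ x ∂μ, (fourier ((M : ℤ) * m) x : ℂ) = 1 := by
      have : Aᶜ ∈ {s | μ s = 0} := hA0
      have hmem : ∀ᵐ x ∂μ, x ∈ A := by
        rw [ae_iff]
        exact hA0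
      filter_upwards [hmem] with x hx
      have hd : addOrderOf x ∣ M := dvd_prod_of_mem _ (hAf.mem_toFinset.mpr hx)
      have hM0 : M • x = 0 := addOrderOf_dvd_iff_nsmul_eq_zero.mp hd
      rw [fourier_eq_one, mul_comm, mul_smul, natCast_zsmul, hM0, smul_zero, fourier_eval_zero]
    rw [integral_congr_ae hae]
    simp

/-- the predicate of the starting library for index `1` -/
abbrev V1 (c : ℂ) : Prop := Pool.Agent.Y253.TR.V 1 c

theorem V1_inv {c : ℂ} : V1 c ↔ ∃ μ : Measure UnitAddCircle, Inv μ ∧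
    (∃ M : ℕ, 1 ≤ M ∧ ∀ m : ℤ, ∫ x, (fourier (M * m) x : ℂ) ∂μ = 1) ∧
    ∫ x, (fourier 1 x : ℂ) ∂μ = c := by
  constructor
  · rintro ⟨μ, h1, h2, h3, h4, h5⟩; exact ⟨μ, ⟨h1, h2, h3⟩, h4, h5⟩
  · rintro ⟨μ, ⟨h1, h2, h3⟩, h4, h5⟩; exact ⟨μ, h1, h2, h3, h4, h5⟩

theorem mix_fourier {μ ν : Measure UnitAddCircle} (hμ : Inv μ) (hν : Inv ν) {s t : ℝ} (hs : 0 ≤ s)
    (ht : 0 ≤ t) (n : ℤ) :
    ∫ x, (fourier n x : ℂ) ∂(ENNReal.ofReal s • μ + ENNReal.ofReal t • ν) =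
      s * ∫ x, (fourier n x : ℂ) ∂μ + t * ∫ x, (fourier n x : ℂ) ∂ν := by
  have := hμ.1
  have := hν.1
  have i1 : Integrable (fun x : UnitAddCircle => (fourier n x : ℂ)) (ENNReal.ofReal s • μ) :=
    (int_c (map_continuous _)).smul_measure ENNReal.ofReal_ne_top
  have i2 : Integrable (fun x : UnitAddCircle => (fourier n x : ℂ)) (ENNReal.ofReal t • ν) :=
    (int_c (map_continuous _)).smul_measure ENNReal.ofReal_ne_top
  rw [integral_add_measure i1 i2, integral_smul_measure, integral_smul_measure,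
    ENNReal.toReal_ofReal hs, ENNReal.toReal_ofReal ht, Complex.real_smul, Complex.real_smul]

theorem V1_convex : Convex ℝ {c : ℂ | V1 c} := by
  intro a ha b hb s t hs ht hst
  simp only [Set.mem_ofPred_eq, V1_inv] at ha hb ⊢
  obtain ⟨μ, hμ, ⟨M, hM, hMμ⟩, rfl⟩ := ha
  obtain ⟨ν, hν, ⟨N, hN, hNν⟩, rfl⟩ := hb
  obtain ⟨h1, h2⟩ := hμ.mix hν hs ht hst
  refine ⟨_, h1, ⟨M * N, Nat.one_le_iff_ne_zero.mpr (mul_ne_zero (by omega) (by omega)),
    fun m => ?_⟩, ?_⟩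
  · rw [mix_fourier hμ hν hs ht]
    have e1 : ((M * N : ℕ) : ℤ) * m = M * (N * m) := by push_cast; ring
    have e2 : ((M * N : ℕ) : ℤ) * m = N * (M * m) := by push_cast; ring
    rw [show (∫ x, (fourier (((M * N : ℕ) : ℤ) * m) x : ℂ) ∂μ) = 1 by rw [e1]; exact hMμ _,
      show (∫ x, (fourier (((M * N : ℕ) : ℤ) * m) x : ℂ) ∂ν) = 1 by rw [e2]; exact hNν _,
      mul_one, mul_one]
    exact_mod_cast hst
  · rw [h2, Complex.real_smul, Complex.real_smul]

theorem V1_one : V1 1 := by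
  rw [V1_inv]
  refine ⟨Measure.dirac 0, ⟨inferInstance, ?_, ?_⟩, ⟨1, le_rfl, fun m => ?_⟩, ?_⟩
  · refine ⟨(continuous_nsmul 2).measurable, ?_⟩
    rw [Measure.map_dirac' (continuous_nsmul 2).measurable, smul_zero]
  · refine ⟨(continuous_nsmul 3).measurable, ?_⟩
    rw [Measure.map_dirac' (continuous_nsmul 3).measurable, smul_zero]
  · simp
  · simp

theorem V1_vV : V1 vV := by
  rw [V1_inv]
  have hne : S431.Nonempty := by
    rw [← Finset.card_pos, S431_card]; norm_num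
  refine ⟨orb (N := 431) S431, ⟨orb_prob hne, orb_mp 2 S431_two, orb_mp 3 S431_three⟩,
    ⟨431, by norm_num, fun m => orb_kernel (N := 431) hne m⟩, ?_⟩
  rw [orb_co, S431_card, vV_eq]
  have hinj : Set.InjOn (fun j => (((2 : ℕ) ^ j : ℕ) : ZMod 431)) (Finset.range 43 : Set ℕ) := by
    rw [← Finset.card_image_iff]
    have := S431_card
    unfold S431 at this
    rw [this, Finset.card_range]
  unfold S431
  rw [Finset.sum_image hinj]
  push_cast
  ring

theorem V1_vW : V1 vW := by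
  obtain ⟨c, hc, hre, him⟩ := V_tw
  rcases abs_cases c.im with ⟨q, -⟩ | ⟨q, -⟩
  · have : vW = c := Complex.ext (by rw [vW_re, hre]) (by rw [vW_im, ← him, q])
    rw [this]; exact hc
  · have : vW = conj c := Complex.ext (by rw [Complex.conj_re, vW_re, hre])
      (by rw [Complex.conj_im, vW_im, ← him, q])
    rw [this]; exact V_conj hc

theorem V1_hexa {c : ℂ} (hc : c ∈ hexa vV vW) : V1 c := by
  have : hexa vV vW ⊆ {c : ℂ | V1 c} := by
    refine convexHull_min ?_ V1_convex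
    intro c hc
    simp only [Set.mem_insert_iff, Set.mem_singleton_iff] at hc
    rcases hc with rfl | rfl | rfl | rfl | rfl | rfl
    · exact V1_one
    · exact V1_vV
    · exact V_conj V1_vV
    · exact V1_vW
    · exact V_conj V1_vW
    · exact V_five
  exact this hc

/-- **The theorem for traces.** -/
theorem trace_region {s2 s3 t : Equiv.Perm ℚ} (hs2 : ∀ x, s2 x = 2 * x)
    (hs3 : ∀ x, s3 x = 3 * x) (ht : ∀ x, t x = x + 1) {G : Subgroup (Equiv.Perm ℚ)}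
    (hG : G = Subgroup.closure {s2, s3, t}) {g : G} (hg1 : g ≠ 1)
    (hg : ∃ r : ℚ, ∀ x : ℚ, (g : Equiv.Perm ℚ) x = x + r) :
    (∀ φ ∈ {ψ : G → ℂ | ψ 1 = 1 ∧ (∀ g h : G, ψ (h * g * h⁻¹) = ψ g) ∧ PD ψ},
      φ g ∈ hexa vV vW ∧ (φ g ∈ interior (hexa vV vW) ∨
        FiniteDimensional ℂ (Submodule.span ℂ {F : G → ℂ | ∃ n : G,
          (∃ r : ℚ, ∀ x : ℚ, (n : Equiv.Perm ℚ) x = x + r) ∧ F = fun x => φ (n * x)}))) ∧
    ∀ c ∈ hexa vV vW,
      ∃ φ ∈ {ψ : G → ℂ | ψ 1 = 1 ∧ (∀ g h : G, ψ (h * g * h⁻¹) = ψ g) ∧ PD ψ},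
        FiniteDimensional ℂ (Submodule.span ℂ {F : G → ℂ | ∃ n : G,
          (∃ r : ℚ, ∀ x : ℚ, (n : Equiv.Perm ℚ) x = x + r) ∧ F = fun x => φ (n * x)}) ∧
        φ g = c := by
  obtain ⟨r, hr⟩ := hg
  have hform : ∀ g : G, ∃ (a b : ℤ) (r : ℚ), Six r ∧
      ∀ x, (g : Equiv.Perm ℚ) x = 2 ^ a * 3 ^ b * x + r := fun g =>
    form hs2 hs3 ht g (by rw [← hG]; exact g.2)
  obtain ⟨n, k, hnk⟩ : Six r := by
    obtain ⟨a, b, r', hr', h⟩ := hform g
    have e0 := h 0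
    rw [hr, mul_zero, zero_add, zero_add] at e0
    rw [e0]; exact hr'
  have hgn : ∀ x, (g : Equiv.Perm ℚ) x = x + n / 6 ^ k := fun x => by rw [hr, hnk]
  have hn : n ≠ 0 := by
    rintro rfl
    apply hg1
    apply Subtype.ext
    apply Equiv.ext
    intro x
    rw [hgn]; simp
  refine ⟨?_, fun c hc => ?_⟩
  · rintro φ ⟨h1, hcl, hpd⟩
    obtain ⟨τ, S6, μ, D⟩ := data_of hs2 hs3 ht hG h1 hcl hpd
    have hi : Inv μ := ⟨D.prob, D.mp2, D.mp3⟩
    obtain ⟨a, b⟩ := all_co hi hn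
    rw [phi_trans D.hτ D.hcl S6 D.hS6 g n k hgn, ← D.hμ]
    refine ⟨a, b.imp id fun hF => ?_⟩
    obtain ⟨M, hM1, hM⟩ := fin_tor hi hF
    refine finite_dim D.hτ D.h1 D.hcl D.hpd S6 D.hS6 D.hform D.h2 D.h3 ⟨M, hM1, fun n => ?_⟩
    rw [← D.hμ]
    exact hM n
  · obtain ⟨φ, hφ, hfd, hφg⟩ := attained hs2 hs3 ht hG (V_int hn (V1_hexa hc)) hgn
    exact ⟨φ, hφ, hfd, hφg⟩

end Pool.Agent.R277.FR
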